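import Mathlib

/-!
# Algebra of the `q`-Catalan numbers

`qi m = 1 + X + ... + X ^ (m - 1)`, `qf m = qi 1 * ... * qi m`, and the elementary symmetric
polynomials `e N m` of `1, X, ..., X ^ (N - 1)`.
-/

set_option autoImplicit false

namespace Pool.Agent.H165.QCat

open Polynomial Finset

noncomputable def qi (m : ℕ) : ℚ[X] := ∑ i ∈ range m, X ^ i

noncomputable def qf (m : ℕ) : ℚ[X] := ∏ i ∈ range m, qi (i + 1)

lemma qf_succ (m : ℕ) : qf (m + 1) = qf m * qi (m + 1) := prod_range_succ _ _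

lemma qi_add (a b : ℕ) : qi (a + b) = qi a + X ^ a * qi b := by
  unfold qi
  rw [sum_range_add, mul_sum]
  simp only [pow_add]

lemma qi_monic (m : ℕ) : (qi (m + 1)).Monic := monic_geom_sum_X (by omega)

lemma qi_deg (m : ℕ) : (qi (m + 1)).natDegree = m := by
  have h := congrArg natDegree (geom_sum_mul (X : ℚ[X]) (m + 1))
  have h1 : ((X : ℚ[X]) - 1).Monic := monic_X_sub_C 1
  have h2 : ((X : ℚ[X]) - 1).natDegree = 1 := natDegree_X_sub_C 1
  have h3 : ((X : ℚ[X]) ^ (m + 1) - 1).natDegree = m + 1 := natDegree_X_pow_sub_C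
  change (qi (m + 1) * (X - 1)).natDegree = _ at h
  rw [Monic.natDegree_mul (qi_monic m) h1, h2, h3] at h
  exact Nat.add_right_cancel h

lemma qf_monic (m : ℕ) : (qf m).Monic := monic_prod_of_monic _ _ fun i _ => qi_monic i

lemma qf_deg (m : ℕ) : 2 * (qf m).natDegree + m = m * m := by
  induction m with
  | zero => simp [qf]
  | succ m ih =>
    rw [qf_succ, Monic.natDegree_mul (qf_monic m) (qi_monic m), qi_deg]
    nlinarith

lemma qi_rev (m : ℕ) : (qi (m + 1)).reverse = qi (m + 1) := by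
  ext k
  rw [coeff_reverse, qi_deg]
  simp only [qi, finsetSum_coeff, coeff_X_pow, sum_ite_eq, mem_range]
  by_cases h : k ≤ m
  · rw [revAt_le h, if_pos (by omega), if_pos (by omega)]
  · rw [revAt_eq_self_of_lt (by omega)]

lemma qf_rev (m : ℕ) : (qf m).reverse = qf m := by
  induction m with
  | zero =>
    simp only [qf, range_zero, prod_empty]
    exact reverse_C 1
  | succ m ih => rw [qf_succ, reverse_mul_of_domain, ih, qi_rev]

lemma gauss : ∀ n a b : ℕ, a + b = n → ∃ G : ℚ[X], qf a * qf b * G = qf n := by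
  intro n
  induction n with
  | zero =>
    intro a b h
    obtain ⟨rfl, rfl⟩ : a = 0 ∧ b = 0 := by omega
    exact ⟨1, by simp [qf]⟩
  | succ n ih =>
    intro a b h
    rcases a with _ | a
    · obtain rfl : b = n + 1 := by omega
      exact ⟨1, by simp [qf]⟩
    rcases b with _ | b
    · obtain rfl : a = n := by omega
      exact ⟨1, by simp [qf]⟩
    obtain ⟨G1, h1⟩ := ih a (b + 1) (by omega)
    obtain ⟨G2, h2⟩ := ih (a + 1) b (by omega)
    refine ⟨G1 + X ^ (a + 1) * G2, ?_⟩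
    rw [qf_succ n, ← h, qi_add]
    rw [qf_succ] at h1 h2
    rw [qf_succ a, qf_succ b]
    linear_combination qi (a + 1) * h1 + X ^ (a + 1) * qi (b + 1) * h2

lemma exists_cat (n : ℕ) : ∃ C : ℚ[X], qi (n + 1) * qf n * qf n * C = qf (2 * n) := by
  rcases n with _ | n
  · exact ⟨1, by simp [qf, qi]⟩
  obtain ⟨G1, h1⟩ := gauss (2 * (n + 1)) (n + 1) (n + 1) (by omega)
  obtain ⟨G2, h2⟩ := gauss (2 * (n + 1)) (n + 1 + 1) n (by omega)
  refine ⟨G1 - X * G2, ?_⟩
  have e : qi (n + 1 + 1) = 1 + X * qi (n + 1) := by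
    rw [add_comm (n + 1) 1, qi_add]
    simp [qi]
  rw [qf_succ (n + 1)] at h2
  have h3 := qf_succ n
  linear_combination qi (n + 1 + 1) * h1 - X * qi (n + 1) * h2 + qf (2 * (n + 1)) * e -
    X * G2 * qi (n + 1 + 1) * qf (n + 1) * h3

lemma cat_deg (n : ℕ) (C : ℚ[X]) (h : qi (n + 1) * qf n * qf n * C = qf (2 * n)) :
    C.natDegree + n = n * n := by
  have hm : (qi (n + 1) * qf n * qf n).Monic := ((qi_monic n).mul (qf_monic n)).mul (qf_monic n)
  have hC : C ≠ 0 := by
    rintro rfl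
    rw [mul_zero] at h
    exact (qf_monic _).ne_zero h.symm
  have h1 := congrArg natDegree h
  rw [natDegree_mul hm.ne_zero hC, Monic.natDegree_mul ((qi_monic n).mul (qf_monic n)) (qf_monic n),
    Monic.natDegree_mul (qi_monic n) (qf_monic n), qi_deg] at h1
  have h2 := qf_deg n
  have h3 := qf_deg (2 * n)
  nlinarith

lemma cat_symm (n : ℕ) (C : ℚ[X]) (h : qi (n + 1) * qf n * qf n * C = qf (2 * n)) (j k : ℕ)
    (hjk : j + k + n = n * n) : C.coeff j = C.coeff k := by
  have hm : (qi (n + 1) * qf n * qf n).Monic := ((qi_monic n).mul (qf_monic n)).mul (qf_monic n)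
  have h4 : C.natDegree = j + k := by
    have := cat_deg n C h
    omega
  have h5 := congrArg reverse h
  rw [reverse_mul_of_domain, reverse_mul_of_domain, reverse_mul_of_domain, qi_rev, qf_rev, qf_rev,
    ← h] at h5
  have h6 : C.reverse = C := mul_left_cancel₀ hm.ne_zero h5
  conv_lhs => rw [← h6]
  rw [coeff_reverse, h4, revAt_le (by omega), Nat.add_sub_cancel_left]

/-- the elementary symmetric polynomials of `1, X, ..., X ^ (N - 1)` -/
noncomputable def e : ℕ → ℕ → ℚ[X]
  | _, 0 => 1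
  | 0, _ + 1 => 0
  | N + 1, m + 1 => e N (m + 1) + X ^ N * e N m

lemma e_zero_right (N : ℕ) : e N 0 = 1 := by cases N <;> rfl

lemma e_succ_succ (N m : ℕ) : e (N + 1) (m + 1) = e N (m + 1) + X ^ N * e N m := rfl

lemma e_eq_zero : ∀ N m : ℕ, N < m → e N m = 0 := by
  intro N
  induction N with
  | zero =>
    intro m hm
    obtain ⟨m, rfl⟩ := Nat.exists_eq_succ_of_ne_zero (by omega : m ≠ 0)
    rfl
  | succ N ih =>
    intro m hm
    obtain ⟨m, rfl⟩ := Nat.exists_eq_succ_of_ne_zero (by omega : m ≠ 0)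
    rw [e_succ_succ, ih _ (by omega), ih _ (by omega)]
    simp

/-- `m (m - 1) / 2` -/
def tri (m : ℕ) : ℕ := ∑ i ∈ range m, i

lemma tri_succ (m : ℕ) : tri (m + 1) = tri m + m := sum_range_succ _ _

lemma two_tri (m : ℕ) : 2 * tri m + m = m * m := by
  induction m with
  | zero => simp [tri]
  | succ m ih => rw [tri_succ]; nlinarith

lemma e_closed : ∀ N a b : ℕ, a + b = N → e N a * qf a * qf b = X ^ tri a * qf N := by
  intro N
  induction N with
  | zero =>
    intro a b h
    obtain ⟨rfl, rfl⟩ : a = 0 ∧ b = 0 := by omega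
    simp [e, qf, tri]
  | succ N ih =>
    intro a b h
    rcases a with _ | a
    · obtain rfl : b = N + 1 := by omega
      simp [e, qf, tri]
    rcases b with _ | b
    · obtain rfl : a = N := by omega
      have h2 := ih a 0 (by omega)
      rw [e_succ_succ, e_eq_zero _ _ (by omega : a < a + 1)]
      rw [tri_succ, pow_add, qf_succ a]
      simp only [qf, range_zero, prod_empty, mul_one] at h2 ⊢
      linear_combination X ^ a * qi (a + 1) * h2
    have h1 := ih (a + 1) b (by omega)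
    have h2 := ih a (b + 1) (by omega)
    obtain rfl : N = a + 1 + b := by omega
    have h3 : qi (a + 1 + b + 1) = qi (b + 1) + X ^ (b + 1) * qi (a + 1) := by
      rw [← qi_add]; congr 1; omega
    have h4 : (X : ℚ[X]) ^ (a + 1 + b) = X ^ a * X ^ (b + 1) := by rw [← pow_add]; congr 1; omega
    have h5 : (X : ℚ[X]) ^ tri (a + 1) = X ^ tri a * X ^ a := by rw [tri_succ, pow_add]
    rw [e_succ_succ, qf_succ (a + 1 + b), h3, qf_succ b, h5, h4, qf_succ a]
    rw [qf_succ a, h5] at h1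
    rw [qf_succ b] at h2
    linear_combination qi (b + 1) * h1 + X ^ a * X ^ (b + 1) * qi (a + 1) * h2

/-- the ratio of consecutive `e N m` -/
lemma e_ratio (N m : ℕ) (hm : m < N) : e N (m + 1) * qi (m + 1) = X ^ m * qi (N - m) * e N m := by
  obtain ⟨b, rfl⟩ : ∃ b, N = m + 1 + b := ⟨N - (m + 1), by omega⟩
  have h1 := e_closed (m + 1 + b) (m + 1) b rfl
  have h2 := e_closed (m + 1 + b) m (b + 1) (by omega)
  have h3 : m + 1 + b - m = b + 1 := by omega
  rw [h3]
  rw [qf_succ, tri_succ, pow_add] at h1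
  rw [qf_succ b] at h2
  have h4 : qf m * qf b ≠ 0 := mul_ne_zero (qf_monic _).ne_zero (qf_monic _).ne_zero
  apply mul_left_cancel₀ h4
  linear_combination h1 - X ^ m * h2

/-- the `q`-Catalan number in terms of `e (2 n) n` and `e (2 n) (n + 1)` -/
lemma cat_e (n : ℕ) (hn : 1 ≤ n) (C : ℚ[X]) (h : qi (n + 1) * qf n * qf n * C = qf (2 * n)) :
    X ^ tri (n + 1) * C = X ^ n * e (2 * n) n - X * e (2 * n) (n + 1) ∧
    X ^ tri (n + 1) * C * qi (n + 1) = X ^ n * e (2 * n) n := by
  have h1 := e_closed (2 * n) n n (by omega)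
  have h2 := e_ratio (2 * n) n (by omega)
  have h3 : 2 * n - n = n := by omega
  rw [h3] at h2
  have h5 : qf n * qf n ≠ 0 := mul_ne_zero (qf_monic _).ne_zero (qf_monic _).ne_zero
  have h6 : X ^ tri (n + 1) * C * qi (n + 1) = X ^ n * e (2 * n) n := by
    apply mul_left_cancel₀ h5
    rw [tri_succ, pow_add]
    linear_combination X ^ tri n * X ^ n * h - X ^ n * h1
  refine ⟨?_, h6⟩
  have h7 : qi (n + 1) = 1 + X * qi n := by
    rw [add_comm n 1, qi_add]
    simp [qi]
  apply mul_left_cancel₀ (qi_monic n).ne_zero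
  linear_combination h6 + X * h2 - X ^ n * e (2 * n) n * h7

lemma qi_one : qi 1 = 1 := by simp [qi]

lemma qf_eq_prod (n : ℕ) (hn : 1 ≤ n) : qf n = ∏ i ∈ range (n - 1), qi (i + 2) := by
  obtain ⟨m, rfl⟩ : ∃ m, n = m + 1 := ⟨n - 1, by omega⟩
  rw [qf, prod_range_succ', qi_one, mul_one]
  simp

/-- the product formula -/
lemma cat_prod (n : ℕ) (hn : 1 ≤ n) (C : ℚ[X]) (h : qi (n + 1) * qf n * qf n * C = qf (2 * n)) :
    C * ∏ i ∈ range (n - 1), qi (i + 2) = ∏ i ∈ range (n - 1), qi (n + i + 2) := by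
  rw [← qf_eq_prod n hn]
  have h1 : qf (2 * n) = qf n * (qi (n + 1) * ∏ i ∈ range (n - 1), qi (n + i + 2)) := by
    obtain ⟨m, rfl⟩ : ∃ m, n = m + 1 := ⟨n - 1, by omega⟩
    have h2 : 2 * (m + 1) = (m + 1) + (m + 1) := by ring
    rw [h2, qf, prod_range_add, ← qf, prod_range_succ']
    simp only [Nat.add_sub_cancel, add_zero]
    rw [mul_comm (∏ i ∈ range m, _) (qi _)]
    congr 3
  have h5 : qi (n + 1) * qf n ≠ 0 := mul_ne_zero (qi_monic _).ne_zero (qf_monic _).ne_zero
  apply mul_left_cancel₀ h5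
  linear_combination h + h1

end Pool.Agent.H165.QCat
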