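import Mathlib

/-!
# Arguments of complex numbers, and the estimates of the local factors
-/

set_option autoImplicit false

namespace Pool.Agent.H165.QCat

open Finset

/-- `f` has an argument of absolute value at most `β` -/
def Ar (f : ℂ) (β : ℝ) : Prop := ∃ α : ℝ, |α| ≤ β ∧ f = ‖f‖ * Complex.exp (α * Complex.I)

lemma Ar.mul {f g : ℂ} {β γ : ℝ} (hf : Ar f β) (hg : Ar g γ) : Ar (f * g) (β + γ) := by
  obtain ⟨a, ha, hf⟩ := hf
  obtain ⟨b, hb, hg⟩ := hg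
  refine ⟨a + b, (abs_add_le a b).trans (add_le_add ha hb), ?_⟩
  rw [norm_mul]
  push_cast
  rw [add_mul, Complex.exp_add]
  conv_lhs => rw [hf, hg]
  ring

lemma Ar.inv {f : ℂ} {β : ℝ} (hf : Ar f β) : Ar f⁻¹ β := by
  obtain ⟨a, ha, hf⟩ := hf
  refine ⟨-a, by rwa [abs_neg], ?_⟩
  rw [norm_inv]
  push_cast
  rw [neg_mul, Complex.exp_neg, ← mul_inv, ← hf]

lemma Ar.div {f g : ℂ} {β γ : ℝ} (hf : Ar f β) (hg : Ar g γ) : Ar (f / g) (β + γ) := by
  rw [div_eq_mul_inv]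
  exact hf.mul hg.inv

lemma Ar.one : Ar 1 0 := ⟨0, by simp, by simp⟩

lemma Ar.prod {ι : Type*} (s : Finset ι) (f : ι → ℂ) (β : ι → ℝ) (h : ∀ i ∈ s, Ar (f i) (β i)) :
    Ar (∏ i ∈ s, f i) (∑ i ∈ s, β i) := by
  classical
  induction s using Finset.induction_on with
  | empty => simpa using Ar.one
  | insert a s ha ih =>
    rw [prod_insert ha, sum_insert ha]
    exact (h a (by simp)).mul (ih fun i hi => h i (by simp [hi]))

lemma Ar.mono {f : ℂ} {β γ : ℝ} (hf : Ar f β) (h : β ≤ γ) : Ar f γ := by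
  obtain ⟨a, ha, hf⟩ := hf
  exact ⟨a, ha.trans h, hf⟩

lemma Ar.re {f : ℂ} {β : ℝ} (hf : Ar f β) (hβ : β ≤ 1) : ‖f‖ / 2 ≤ f.re := by
  obtain ⟨a, ha, hf⟩ := hf
  have h1 : f.re = ‖f‖ * Real.cos a := by
    conv_lhs => rw [hf]
    rw [Complex.re_ofReal_mul, Complex.exp_ofReal_mul_I_re]
  have h2 : 1 - a ^ 2 / 2 ≤ Real.cos a := Real.one_sub_sq_div_two_le_cos
  have h3 : a ^ 2 ≤ 1 := by
    rw [← sq_abs]
    have := abs_nonneg a
    nlinarith
  rw [h1]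
  have := norm_nonneg f
  nlinarith

lemma Ar.of_re_im {f : ℂ} {β : ℝ} (h0 : 0 < f.re) (h : |f.im| ≤ β * f.re) : Ar f β := by
  refine ⟨f.arg, ?_, (Complex.norm_mul_exp_arg_mul_I f).symm⟩
  have h1 : |f.arg| < Real.pi / 2 := Complex.abs_arg_lt_pi_div_two_iff.mpr (Or.inl h0)
  have h2 : |f.arg| ≤ |f.im / f.re| := by
    rw [← Complex.tan_arg]
    rcases le_total 0 f.arg with h | h
    · rw [abs_of_nonneg h] at h1 ⊢
      exact (Real.le_tan h h1).trans (le_abs_self _)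
    · rw [abs_of_nonpos h] at h1 ⊢
      have := Real.le_tan (neg_nonneg.mpr h) h1
      rw [Real.tan_neg] at this
      exact this.trans (neg_le_abs _)
  refine h2.trans ?_
  rw [abs_div, abs_of_pos h0, div_le_iff₀ h0]
  exact h

lemma abs_sin_sub_self_le (y : ℝ) : |Real.sin y - y| ≤ |y| ^ 3 / 6 := by
  rcases lt_trichotomy y 0 with h | h | h
  · have h1 := Real.sin_gt_sub_cube (neg_pos.mpr h)
    have h2 := Real.sin_lt (neg_pos.mpr h)
    rw [Real.sin_neg] at h1 h2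
    rw [abs_of_neg h, abs_le]
    constructor <;> nlinarith [pow_pos (neg_pos.mpr h) 3]
  · simp [h]
  · have h1 := Real.sin_gt_sub_cube h
    have h2 := Real.sin_lt h
    rw [abs_of_pos h, abs_le]
    constructor <;> nlinarith [pow_pos h 3]

/-- the mean of the truncated geometric distribution -/
noncomputable def mu (r : ℝ) (j : ℕ) : ℝ := (∑ l ∈ range j, (l : ℝ) * r ^ l) / ∑ l ∈ range j, r ^ l

/-- centred value of `1 + z + ... + z ^ (j - 1)` -/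
noncomputable def V (r θ : ℝ) (j : ℕ) : ℂ :=
  (∑ l ∈ range j, (r : ℂ) ^ l * Complex.exp (((l - mu r j) * θ : ℝ) * Complex.I)) /
    (∑ l ∈ range j, r ^ l : ℝ)

lemma sum_pos' {r : ℝ} (hr : 0 ≤ r) {j : ℕ} (hj : 1 ≤ j) : 1 ≤ ∑ l ∈ range j, r ^ l := by
  obtain ⟨m, rfl⟩ : ∃ m, j = m + 1 := ⟨j - 1, by omega⟩
  rw [sum_range_succ']
  simp only [pow_zero]
  have : 0 ≤ ∑ k ∈ range m, r ^ (k + 1) := sum_nonneg fun i _ => by positivity
  linarith

lemma mu_mem {r : ℝ} (hr : 0 ≤ r) {j : ℕ} (hj : 1 ≤ j) : 0 ≤ mu r j ∧ mu r j ≤ j := by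
  have h1 := sum_pos' hr hj
  unfold mu
  constructor
  · apply div_nonneg _ (by linarith)
    exact sum_nonneg fun i _ => by positivity
  · rw [div_le_iff₀ (by linarith), mul_sum]
    refine sum_le_sum fun i hi => ?_
    have : (i : ℝ) ≤ j := by exact_mod_cast (mem_range.mp hi).le
    exact mul_le_mul_of_nonneg_right this (by positivity)

lemma V_re (r θ : ℝ) (j : ℕ) : (V r θ j).re =
    (∑ l ∈ range j, r ^ l * Real.cos ((l - mu r j) * θ)) / ∑ l ∈ range j, r ^ l := by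
  unfold V
  rw [Complex.div_ofReal_re, Complex.re_sum]
  congr 1
  refine sum_congr rfl fun l _ => ?_
  rw [← Complex.ofReal_pow, Complex.re_ofReal_mul, Complex.exp_ofReal_mul_I_re]

lemma V_im (r θ : ℝ) (j : ℕ) : (V r θ j).im =
    (∑ l ∈ range j, r ^ l * Real.sin ((l - mu r j) * θ)) / ∑ l ∈ range j, r ^ l := by
  unfold V
  rw [Complex.div_ofReal_im, Complex.im_sum]
  congr 1
  refine sum_congr rfl fun l _ => ?_
  rw [← Complex.ofReal_pow, Complex.im_ofReal_mul, Complex.exp_ofReal_mul_I_im]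

lemma abs_sub_mu_le {r : ℝ} (hr : 0 ≤ r) {j : ℕ} (hj : 1 ≤ j) {l : ℕ} (hl : l ∈ range j) :
    |(l : ℝ) - mu r j| ≤ j := by
  have h1 := mu_mem hr hj
  have h2 : (l : ℝ) ≤ j := by exact_mod_cast (mem_range.mp hl).le
  have h3 : (0 : ℝ) ≤ l := Nat.cast_nonneg l
  rw [abs_le]
  constructor <;> linarith

lemma V_re_ge {r : ℝ} (hr : 0 ≤ r) {j : ℕ} (hj : 1 ≤ j) (θ : ℝ) :
    1 - (j * θ) ^ 2 / 2 ≤ (V r θ j).re := by
  have h1 := sum_pos' hr hj
  rw [V_re, le_div_iff₀ (by linarith), mul_sum]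
  refine sum_le_sum fun l hl => ?_
  have h2 : 1 - ((l - mu r j) * θ) ^ 2 / 2 ≤ Real.cos ((l - mu r j) * θ) :=
    Real.one_sub_sq_div_two_le_cos
  have h3 := abs_sub_mu_le hr hj hl
  have h4 : ((l - mu r j) * θ) ^ 2 ≤ (j * θ) ^ 2 := by
    rw [mul_pow, mul_pow]
    exact mul_le_mul_of_nonneg_right
      (sq_le_sq.mpr (by rwa [abs_of_nonneg (Nat.cast_nonneg j : (0 : ℝ) ≤ j)])) (sq_nonneg _)
  have h5 : 0 ≤ r ^ l := by positivity
  nlinarith

lemma V_im_le {r : ℝ} (hr : 0 ≤ r) {j : ℕ} (hj : 1 ≤ j) (θ : ℝ) :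
    |(V r θ j).im| ≤ (j * |θ|) ^ 3 / 6 := by
  have h1 := sum_pos' hr hj
  have h0 : ∑ l ∈ range j, r ^ l * ((l - mu r j) * θ) = 0 := by
    have : ∑ l ∈ range j, r ^ l * ((l - mu r j) * θ) =
        (∑ l ∈ range j, (l : ℝ) * r ^ l - mu r j * ∑ l ∈ range j, r ^ l) * θ := by
      rw [mul_sum, ← sum_sub_distrib, sum_mul]
      refine sum_congr rfl fun l _ => ?_
      ring
    rw [this, mu, div_mul_cancel₀ _ (by linarith), sub_self, zero_mul]
  rw [V_im, abs_div, abs_of_pos (by linarith : (0 : ℝ) < ∑ l ∈ range j, r ^ l),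
    div_le_iff₀ (by linarith)]
  have h2 : ∑ l ∈ range j, r ^ l * Real.sin ((l - mu r j) * θ) =
      ∑ l ∈ range j, r ^ l * (Real.sin ((l - mu r j) * θ) - (l - mu r j) * θ) := by
    simp only [mul_sub (r ^ _)]
    rw [sum_sub_distrib, h0, sub_zero]
  rw [h2, mul_sum]
  refine (abs_sum_le_sum_abs _ _).trans (sum_le_sum fun l hl => ?_)
  have h3 : |(l - mu r j) * θ| ≤ j * |θ| := by
    rw [abs_mul]
    exact mul_le_mul_of_nonneg_right (abs_sub_mu_le hr hj hl) (abs_nonneg _)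
  have h4 := abs_sin_sub_self_le ((l - mu r j) * θ)
  have h5 : 0 ≤ r ^ l := by positivity
  rw [abs_mul, abs_of_nonneg h5, mul_comm]
  apply mul_le_mul_of_nonneg_right _ h5
  refine h4.trans ?_
  gcongr

lemma norm_V_le {r : ℝ} (hr : 0 ≤ r) {j : ℕ} (hj : 1 ≤ j) (θ : ℝ) : ‖V r θ j‖ ≤ 1 := by
  have h1 := sum_pos' hr hj
  unfold V
  rw [norm_div, Complex.norm_of_nonneg (by linarith : (0 : ℝ) ≤ ∑ l ∈ range j, r ^ l),
    div_le_one (by linarith)]
  refine (norm_sum_le _ _).trans (sum_le_sum fun l _ => ?_)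
  rw [norm_mul, Complex.norm_exp_ofReal_mul_I, mul_one, norm_pow, Complex.norm_of_nonneg hr]

lemma Ar_V {r : ℝ} (hr : 0 ≤ r) {j : ℕ} (hj : 1 ≤ j) {θ : ℝ} (hθ : j * |θ| ≤ 1) :
    Ar (V r θ j) ((j * |θ|) ^ 3 / 3) := by
  have h1 := V_re_ge hr hj θ
  have h2 := V_im_le hr hj θ
  have h3 : (j * θ) ^ 2 = (j * |θ|) ^ 2 := by rw [mul_pow, mul_pow, sq_abs]
  have h4 : 0 ≤ j * |θ| := by positivity
  have h5 : 1 / 2 ≤ (V r θ j).re := by
    rw [h3] at h1
    nlinarith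
  refine Ar.of_re_im (by linarith) (h2.trans ?_)
  nlinarith [pow_nonneg h4 3]

/-- centred value of `1 - z ^ j` -/
noncomputable def U (r θ : ℝ) (j : ℕ) : ℂ :=
  (1 - (r : ℂ) ^ j * Complex.exp ((j * θ : ℝ) * Complex.I)) / (1 - r ^ j : ℝ) *
    Complex.exp ((j * r ^ j / (1 - r ^ j) * θ : ℝ) * Complex.I)

/-- `g ρ x = (1 - ρ e^{ix}) / (1 - ρ) * e^{i ρ x / (1 - ρ)}` -/
noncomputable def g (ρ x : ℝ) : ℂ :=
  (1 - (ρ : ℂ) * Complex.exp (x * Complex.I)) / (1 - ρ : ℝ) *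
    Complex.exp ((ρ / (1 - ρ) * x : ℝ) * Complex.I)

lemma U_eq_g (r θ : ℝ) (j : ℕ) : U r θ j = g (r ^ j) (j * θ) := by
  unfold U g
  congr 3
  · push_cast
    ring
  · push_cast
    ring

lemma g_re (ρ x : ℝ) : (g ρ x).re =
    (Real.cos (ρ / (1 - ρ) * x) - ρ * Real.cos (x + ρ / (1 - ρ) * x)) / (1 - ρ) := by
  have h : g ρ x = (Complex.exp ((ρ / (1 - ρ) * x : ℝ) * Complex.I) -
      ρ * Complex.exp ((x + ρ / (1 - ρ) * x : ℝ) * Complex.I)) / (1 - ρ : ℝ) := by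
    unfold g
    rw [Complex.ofReal_add x, add_mul, Complex.exp_add]
    ring
  rw [h, Complex.div_ofReal_re, Complex.sub_re, Complex.re_ofReal_mul,
    Complex.exp_ofReal_mul_I_re, Complex.exp_ofReal_mul_I_re]

lemma g_im (ρ x : ℝ) : (g ρ x).im =
    (Real.sin (ρ / (1 - ρ) * x) - ρ * Real.sin (x + ρ / (1 - ρ) * x)) / (1 - ρ) := by
  have h : g ρ x = (Complex.exp ((ρ / (1 - ρ) * x : ℝ) * Complex.I) -
      ρ * Complex.exp ((x + ρ / (1 - ρ) * x : ℝ) * Complex.I)) / (1 - ρ : ℝ) := by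
    unfold g
    rw [Complex.ofReal_add x, add_mul, Complex.exp_add]
    ring
  rw [h, Complex.div_ofReal_im, Complex.sub_im, Complex.im_ofReal_mul,
    Complex.exp_ofReal_mul_I_im, Complex.exp_ofReal_mul_I_im]

/-- mean value estimate -/
lemma mv {f f' : ℝ → ℝ} (hf : ∀ x, HasDerivAt f (f' x) x) {x K : ℝ}
    (hK : ∀ y, |y| ≤ |x| → |f' y| ≤ K) : |f x - f 0| ≤ K * |x| := by
  have h := (convex_Icc (-|x|) |x|).norm_image_sub_le_of_norm_hasDerivWithin_le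
    (f := f) (f' := f') (C := K) (x := 0) (y := x)
    (fun y _ => (hf y).hasDerivWithinAt) (fun y hy => hK y (abs_le.mpr hy))
    ⟨by simp, by simp⟩ (abs_le.mp le_rfl)
  simpa using h

lemma g_im_le {ρ : ℝ} (h0 : 0 ≤ ρ) (h1 : ρ < 1) (x : ℝ) :
    |(g ρ x).im| ≤ ρ * |x| ^ 3 / (1 - ρ) ^ 3 := by
  have hρ : 0 < 1 - ρ := by linarith
  set c := ρ / (1 - ρ) with hc
  have hc0 : 0 ≤ c := div_nonneg h0 hρ.le
  have hc1 : ρ * (1 + c) = c := by rw [hc]; field_simp; ring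
  have hc2 : 1 + 2 * c ≤ 2 / (1 - ρ) := by
    rw [hc, le_div_iff₀ hρ]
    field_simp
    nlinarith
  have hd : ∀ y : ℝ, HasDerivAt (fun y => (Real.sin (c * y) - ρ * Real.sin (y + c * y)) / (1 - ρ))
      ((Real.cos (c * y) * c - ρ * (Real.cos (y + c * y) * (1 + c))) / (1 - ρ)) y := by
    intro y
    have a1 : HasDerivAt (fun y : ℝ => c * y) c y := by simpa using (hasDerivAt_id y).const_mul c
    have a2 : HasDerivAt (fun y : ℝ => y + c * y) (1 + c) y := (hasDerivAt_id y).add a1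
    exact ((a1.sin).sub ((a2.sin).const_mul ρ)).div_const _
  have h := mv hd (x := x) (K := ρ * |x| ^ 2 / (1 - ρ) ^ 3) (by
    intro y hy
    have e1 : Real.cos (c * y) * c - ρ * (Real.cos (y + c * y) * (1 + c)) =
        c * (Real.cos (c * y) - Real.cos (y + c * y)) := by
      linear_combination -Real.cos (y + c * y) * hc1
    have e2 : |Real.cos (c * y) - Real.cos (y + c * y)| ≤ (1 + 2 * c) * |y| ^ 2 / 2 := by
      rw [Real.cos_sub_cos]
      have b1 : |Real.sin ((c * y + (y + c * y)) / 2)| ≤ |(c * y + (y + c * y)) / 2| :=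
        Real.abs_sin_le_abs
      have b2 : |Real.sin ((c * y - (y + c * y)) / 2)| ≤ |(c * y - (y + c * y)) / 2| :=
        Real.abs_sin_le_abs
      have b3 : |(c * y + (y + c * y)) / 2| = (1 + 2 * c) * |y| / 2 := by
        rw [show (c * y + (y + c * y)) / 2 = (1 + 2 * c) / 2 * y by ring, abs_mul,
          abs_of_nonneg (by linarith)]
        ring
      have b4 : |(c * y - (y + c * y)) / 2| = |y| / 2 := by
        rw [show (c * y - (y + c * y)) / 2 = -(y / 2) by ring, abs_neg, abs_div]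
        norm_num
      rw [abs_mul, abs_mul, abs_neg, abs_two]
      rw [b3] at b1
      rw [b4] at b2
      calc 2 * |Real.sin ((c * y + (y + c * y)) / 2)| * |Real.sin ((c * y - (y + c * y)) / 2)|
          ≤ 2 * ((1 + 2 * c) * |y| / 2) * (|y| / 2) := by gcongr
        _ = (1 + 2 * c) * |y| ^ 2 / 2 := by ring
    rw [e1, abs_div, abs_mul, abs_of_nonneg hc0, abs_of_pos hρ]
    calc c * |Real.cos (c * y) - Real.cos (y + c * y)| / (1 - ρ)
        ≤ c * ((2 / (1 - ρ)) * |x| ^ 2 / 2) / (1 - ρ) := by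
          gcongr
          refine e2.trans ?_
          gcongr
      _ = ρ * |x| ^ 2 / (1 - ρ) ^ 3 := by rw [hc]; field_simp)
  rw [g_im, ← hc]
  simp only [mul_zero, add_zero, Real.sin_zero, sub_zero, zero_div] at h
  calc _ ≤ _ := h
    _ = _ := by ring

lemma g_re_ge {ρ : ℝ} (h0 : 0 ≤ ρ) (h1 : ρ < 1) (x : ℝ) :
    1 - ρ * |x| ^ 2 / (1 - ρ) ^ 2 ≤ (g ρ x).re := by
  have hρ : 0 < 1 - ρ := by linarith
  set c := ρ / (1 - ρ) with hc
  have hc0 : 0 ≤ c := div_nonneg h0 hρ.le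
  have hc1 : ρ * (1 + c) = c := by rw [hc]; field_simp; ring
  have hd : ∀ y : ℝ, HasDerivAt (fun y => (Real.cos (c * y) - ρ * Real.cos (y + c * y)) / (1 - ρ))
      ((-Real.sin (c * y) * c - ρ * (-Real.sin (y + c * y) * (1 + c))) / (1 - ρ)) y := by
    intro y
    have a1 : HasDerivAt (fun y : ℝ => c * y) c y := by simpa using (hasDerivAt_id y).const_mul c
    have a2 : HasDerivAt (fun y : ℝ => y + c * y) (1 + c) y := (hasDerivAt_id y).add a1
    exact ((a1.cos).sub ((a2.cos).const_mul ρ)).div_const _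
  have h := mv hd (x := x) (K := ρ * |x| / (1 - ρ) ^ 2) (by
    intro y hy
    have e1 : -Real.sin (c * y) * c - ρ * (-Real.sin (y + c * y) * (1 + c)) =
        c * (Real.sin (y + c * y) - Real.sin (c * y)) := by
      linear_combination Real.sin (y + c * y) * hc1
    have e2 : |Real.sin (y + c * y) - Real.sin (c * y)| ≤ |y| := by
      have := Real.abs_sin_sub_sin_le (y + c * y) (c * y)
      simpa using this
    rw [e1, abs_div, abs_mul, abs_of_nonneg hc0, abs_of_pos hρ]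
    calc c * |Real.sin (y + c * y) - Real.sin (c * y)| / (1 - ρ)
        ≤ c * |x| / (1 - ρ) :=
          div_le_div_of_nonneg_right (mul_le_mul_of_nonneg_left (e2.trans hy) hc0) hρ.le
      _ = ρ * |x| / (1 - ρ) ^ 2 := by rw [hc]; field_simp)
  rw [g_re, ← hc]
  simp only [mul_zero, add_zero, Real.cos_zero, mul_one] at h
  rw [div_self hρ.ne'] at h
  have h2 := (abs_le.mp h).1
  have h3 : ρ * |x| / (1 - ρ) ^ 2 * |x| = ρ * |x| ^ 2 / (1 - ρ) ^ 2 := by ring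
  linarith

lemma one_le_norm_g {ρ : ℝ} (h0 : 0 ≤ ρ) (h1 : ρ < 1) (x : ℝ) : 1 ≤ ‖g ρ x‖ := by
  have hρ : 0 < 1 - ρ := by linarith
  unfold g
  rw [norm_mul, Complex.norm_exp_ofReal_mul_I, mul_one, norm_div, Complex.norm_of_nonneg hρ.le,
    le_div_iff₀ hρ]
  have := norm_sub_norm_le (1 : ℂ) ((ρ : ℂ) * Complex.exp (x * Complex.I))
  rw [norm_mul, Complex.norm_exp_ofReal_mul_I, Complex.norm_of_nonneg h0, norm_one] at this
  linarith

lemma norm_g_sq {ρ : ℝ} (h1 : ρ < 1) (x : ℝ) :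
    ‖g ρ x‖ ^ 2 = 1 + 2 * ρ * (1 - Real.cos x) / (1 - ρ) ^ 2 := by
  have hρ : 0 < 1 - ρ := by linarith
  unfold g
  rw [norm_mul, Complex.norm_exp_ofReal_mul_I, mul_one, norm_div, Complex.norm_of_nonneg hρ.le,
    div_pow, Complex.sq_norm, Complex.normSq_apply]
  have e1 : (1 - (ρ : ℂ) * Complex.exp (x * Complex.I)).re = 1 - ρ * Real.cos x := by
    rw [Complex.sub_re, Complex.one_re, Complex.re_ofReal_mul, Complex.exp_ofReal_mul_I_re]
  have e2 : (1 - (ρ : ℂ) * Complex.exp (x * Complex.I)).im = -(ρ * Real.sin x) := by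
    rw [Complex.sub_im, Complex.one_im, Complex.im_ofReal_mul, Complex.exp_ofReal_mul_I_im, zero_sub]
  rw [e1, e2]
  have h3 := Real.sin_sq_add_cos_sq x
  field_simp
  nlinarith

lemma norm_g_le {ρ : ℝ} (h0 : 0 ≤ ρ) (h1 : ρ < 1) (x : ℝ) :
    ‖g ρ x‖ ≤ 1 + ρ * |x| ^ 2 / (1 - ρ) ^ 2 := by
  have hρ : 0 < 1 - ρ := by linarith
  have h2 := norm_g_sq h1 x
  have h3 : 1 - x ^ 2 / 2 ≤ Real.cos x := Real.one_sub_sq_div_two_le_cos
  have h4 : ‖g ρ x‖ ^ 2 ≤ 1 + ρ * |x| ^ 2 / (1 - ρ) ^ 2 := by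
    rw [h2, sq_abs]
    gcongr 1 + ?_ / _
    nlinarith
  have h5 : 0 ≤ ρ * |x| ^ 2 / (1 - ρ) ^ 2 := by positivity
  nlinarith [norm_nonneg (g ρ x), sq_nonneg (ρ * |x| ^ 2 / (1 - ρ) ^ 2)]

lemma Ar_g {ρ : ℝ} (h0 : 0 ≤ ρ) (h1 : ρ < 1) {x : ℝ} (hx : ρ * |x| ^ 2 / (1 - ρ) ^ 2 ≤ 1 / 2) :
    Ar (g ρ x) (2 * (ρ * |x| ^ 3 / (1 - ρ) ^ 3)) := by
  have h2 := g_re_ge h0 h1 x
  have h3 := g_im_le h0 h1 x
  have hρ : 0 < 1 - ρ := by linarith
  have h4 : 0 ≤ ρ * |x| ^ 3 / (1 - ρ) ^ 3 := by positivity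
  refine Ar.of_re_im (by linarith) (h3.trans ?_)
  nlinarith

end Pool.Agent.H165.QCat
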