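import Pool.Agent.H165.QCat.MinorArc

/-!
# Log-concavity
-/

set_option autoImplicit false

namespace Pool.Agent.H165.QCat

open Finset Polynomial

/-! ### the mean -/

lemma mu_zero (j : ℕ) : mu 0 j = 0 := by
  unfold mu
  have : ∑ l ∈ range j, (l : ℝ) * 0 ^ l = 0 := by
    refine sum_eq_zero fun l _ => ?_
    rcases l with _ | l <;> simp
  rw [this, zero_div]

lemma mu_one (j : ℕ) (hj : 1 ≤ j) : mu 1 j = (j - 1) / 2 := by
  unfold mu
  have h1 : ∀ j : ℕ, ∑ l ∈ range j, (l : ℝ) = j * (j - 1) / 2 := by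
    intro j
    induction j with
    | zero => simp
    | succ j ih => rw [sum_range_succ, ih]; push_cast; ring
  simp only [one_pow, mul_one, sum_const, card_range, nsmul_eq_mul]
  rw [h1]
  have : (j : ℝ) ≠ 0 := by positivity
  field_simp

lemma mean_zero (n : ℕ) : mean n 0 = 0 := by
  unfold mean
  refine sum_eq_zero fun i _ => ?_
  rw [mu_zero, mu_zero, sub_self]

lemma mean_one (n : ℕ) (hn : 1 ≤ n) : mean n 1 = n * (n - 1) / 2 := by
  unfold mean
  have : ∀ i ∈ range (n - 1), mu 1 (n + i + 2) - mu 1 (i + 2) = n / 2 := by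
    intro i _
    rw [mu_one _ (by omega), mu_one _ (by omega)]
    push_cast
    ring
  rw [sum_congr rfl this, sum_const, card_range, nsmul_eq_mul, Nat.cast_sub hn]
  push_cast
  ring

lemma continuousOn_mean (n : ℕ) : ContinuousOn (mean n) (Set.Icc 0 1) := by
  have h : ∀ j : ℕ, 1 ≤ j → ContinuousOn (fun r => mu r j) (Set.Icc 0 1) := by
    intro j hj
    unfold mu
    refine ContinuousOn.div (by fun_prop) (by fun_prop) fun r hr => ?_
    have := sum_pos' hr.1 hj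
    linarith
  unfold mean
  exact continuousOn_finsetSum _ fun i _ => (h _ (by omega)).sub (h _ (by omega))

lemma exists_r (n : ℕ) (hn : 1 ≤ n) {k : ℝ} (hk : 0 < k) (hk2 : k ≤ n * (n - 1) / 2) :
    ∃ r : ℝ, 0 < r ∧ r ≤ 1 ∧ mean n r = k := by
  have h := intermediate_value_Icc (zero_le_one (α := ℝ)) (continuousOn_mean n)
  rw [mean_zero, mean_one n hn] at h
  obtain ⟨r, hr, hrk⟩ := h ⟨hk.le, hk2⟩
  refine ⟨r, ?_, hr.2, hrk⟩
  rcases hr.1.eq_or_lt with h0 | h0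
  · rw [← h0, mean_zero] at hrk
    linarith
  · exact h0

lemma mean_le {n : ℕ} {r : ℝ} (hr : 0 < r) (hr1 : r < 1) : mean n r ≤ 1 / (1 - r) ^ 3 := by
  have ha : 0 < 1 - r := by linarith
  have h1 : ∀ i ∈ range (n - 1), mu r (n + i + 2) - mu r (i + 2) ≤
      ((i + 2 : ℕ) : ℝ) * r ^ (i + 2) / (1 - r) := by
    intro i _
    rw [mu_eq hr.le hr1 (by omega), mu_eq hr.le hr1 (by omega)]
    have e1 : 0 < 1 - r ^ (n + i + 2) := by
      have := pow_lt_one₀ hr.le hr1 (by omega : n + i + 2 ≠ 0)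
      linarith
    have e2 : 1 - r ≤ 1 - r ^ (i + 2) := by
      have := pow_le_of_le_one hr.le hr1.le (by omega : i + 2 ≠ 0)
      linarith
    have e3 : 0 ≤ ((n + i + 2 : ℕ) : ℝ) * r ^ (n + i + 2) / (1 - r ^ (n + i + 2)) := by positivity
    have e4 : ((i + 2 : ℕ) : ℝ) * r ^ (i + 2) / (1 - r ^ (i + 2)) ≤
        ((i + 2 : ℕ) : ℝ) * r ^ (i + 2) / (1 - r) := by gcongr
    linarith
  have h4 : ∀ j : ℕ, (1 - r) ^ 2 * ∑ l ∈ range j, (l : ℝ) * r ^ l =
      r * (1 - r ^ j) - j * r ^ j * (1 - r) := by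
    intro j
    induction j with
    | zero => simp
    | succ j ih =>
      rw [sum_range_succ, mul_add, ih]
      push_cast
      ring
  have h5 : ∑ l ∈ range (n + 1), (l : ℝ) * r ^ l ≤ 1 / (1 - r) ^ 2 := by
    rw [le_div_iff₀ (by positivity), mul_comm, h4]
    have e1 : 0 ≤ r * r ^ (n + 1) := by positivity
    have e2 : 0 ≤ ((n + 1 : ℕ) : ℝ) * r ^ (n + 1) * (1 - r) := by positivity
    nlinarith
  have h6 : ∑ i ∈ range (n - 1), ((i + 2 : ℕ) : ℝ) * r ^ (i + 2) ≤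
      ∑ l ∈ range (n + 1), (l : ℝ) * r ^ l := by
    rw [← sum_image (f := fun l : ℕ => (l : ℝ) * r ^ l) (g := fun i => i + 2)
      (fun a _ b _ h => by simpa using h)]
    refine sum_le_sum_of_subset_of_nonneg ?_ fun i _ _ => by positivity
    intro l hl
    simp only [mem_image, mem_range] at hl ⊢
    obtain ⟨a, ha, rfl⟩ := hl
    omega
  unfold mean
  calc _ ≤ ∑ i ∈ range (n - 1), ((i + 2 : ℕ) : ℝ) * r ^ (i + 2) / (1 - r) := sum_le_sum h1
    _ = (∑ i ∈ range (n - 1), ((i + 2 : ℕ) : ℝ) * r ^ (i + 2)) / (1 - r) := by rw [sum_div]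
    _ ≤ (1 / (1 - r) ^ 2) / (1 - r) := by
        gcongr
        exact h6.trans h5
    _ = _ := by field_simp

/-! ### the estimates in terms of `Q` -/

/-- the two cases: `Q ^ 3 = n`, or `Q ^ 3 = 1 / (1 - r)` -/
def Scale (n : ℕ) (r Q : ℝ) : Prop :=
  ((n : ℝ) = Q ^ 3 ∧ n * (1 - r) ≤ 1) ∨ ((1 - r) * Q ^ 3 = 1 ∧ Q ^ 3 ≤ n)

lemma est_a {n : ℕ} {C : ℚ[X]}
    (hC : C * ∏ i ∈ range (n - 1), qi (i + 2) = ∏ i ∈ range (n - 1), qi (n + i + 2)) {r Q : ℝ}
    (hr : 0 < r) (hr1 : r ≤ 1) (hQ : 1 ≤ Q) (hs : Scale n r Q) {θ : ℝ}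
    (hθ : |θ| ≤ 1 / (16 * Q ^ 4)) :
    ‖Phi C r (mean n r) θ‖ / 2 ≤ (Phi C r (mean n r) θ).re ∧
    (|θ| ≤ 1 / (16 * Q ^ 5) → 1 / 2 ≤ ‖Phi C r (mean n r) θ‖) := by
  have hQ0 : 0 < Q := by linarith
  have h0 := abs_nonneg θ
  have hθ' : 16 * Q ^ 4 * |θ| ≤ 1 := by
    rw [le_div_iff₀ (by positivity)] at hθ
    linarith
  have hθ3 : Q ^ 12 * |θ| ^ 3 ≤ 1 / 4096 := by
    have h1 : (16 * Q ^ 4 * |θ|) ^ 3 ≤ 1 := pow_le_one₀ (by positivity) hθ'
    have h2 : (16 * Q ^ 4 * |θ|) ^ 3 = 4096 * (Q ^ 12 * |θ| ^ 3) := by ring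
    linarith
  have hQ34 : Q ^ 3 * |θ| ≤ Q ^ 4 * |θ| :=
    mul_le_mul_of_nonneg_right (pow_le_pow_right₀ hQ (by norm_num)) h0
  have hfive : |θ| ≤ 1 / (16 * Q ^ 5) → Q ^ 9 * θ ^ 2 ≤ 1 / 256 := by
    intro h
    rw [le_div_iff₀ (by positivity)] at h
    have h1 : (16 * Q ^ 5 * |θ|) ^ 2 ≤ 1 := pow_le_one₀ (by positivity) (by linarith)
    have h2 : (16 * Q ^ 5 * |θ|) ^ 2 = 256 * (Q ^ 10 * θ ^ 2) := by
      rw [mul_pow, sq_abs]
      ring
    have h3 : Q ^ 9 * θ ^ 2 ≤ Q ^ 10 * θ ^ 2 :=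
      mul_le_mul_of_nonneg_right (pow_le_pow_right₀ hQ (by norm_num)) (sq_nonneg _)
    linarith
  rcases hs with ⟨hn, _⟩ | ⟨ha, _⟩
  · have h1 : 2 * (n : ℝ) * |θ| ≤ 1 := by
      rw [hn]
      nlinarith
    obtain ⟨h2, h3⟩ := main_A hC hr.le h1
    refine ⟨h2.re ?_, fun h => le_trans ?_ h3⟩
    · rw [hn]
      calc 6 * (Q ^ 3) ^ 4 * |θ| ^ 3 = 6 * (Q ^ 12 * |θ| ^ 3) := by ring
        _ ≤ 1 := by linarith
    · rw [hn]
      have := hfive h
      have e : 2 * (Q ^ 3) ^ 3 * θ ^ 2 = 2 * (Q ^ 9 * θ ^ 2) := by ring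
      rw [e]
      linarith
  · have hQ3 : 0 < Q ^ 3 := by positivity
    have ha' : 1 - r = 1 / Q ^ 3 := by field_simp; linarith
    have hr1' : r < 1 := by
      have : 0 < 1 - r := by rw [ha']; positivity
      linarith
    have h1 : 6 * |θ| ≤ 1 - r := by
      rw [ha', le_div_iff₀ hQ3]
      nlinarith
    obtain ⟨h2, h3⟩ := main_B hC hr hr1' h1
    refine ⟨h2.re ?_, fun h => le_trans ?_ h3⟩
    · rw [ha']
      calc 1024 * |θ| ^ 3 / (1 / Q ^ 3) ^ 4 = 1024 * (Q ^ 12 * |θ| ^ 3) := by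
            field_simp
        _ ≤ 1 := by linarith
    · rw [ha']
      have := hfive h
      have e : 64 * θ ^ 2 / (1 / Q ^ 3) ^ 3 = 64 * (Q ^ 9 * θ ^ 2) := by
        field_simp
      rw [e]
      linarith

/-- the constant in the exponent -/
noncomputable def c1 : ℝ := 1 / 70778880

lemma est_c {n : ℕ} (hn : 1 ≤ n) {C : ℚ[X]} (h : qi (n + 1) * qf n * qf n * C = qf (2 * n))
    {r Q : ℝ} (hr : 0 < r) (hr1 : r ≤ 1) (hQ : 2 ≤ Q) (hs : Scale n r Q) (k : ℝ) {θ : ℝ}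
    (hθ : 1 / (16 * Q ^ 4) ≤ |θ|) (hθ2 : |θ| ≤ Real.pi) :
    ‖Phi C r k θ‖ ≤ 16 * Q ^ 6 * Real.exp (-(c1 * Q)) := by
  have hQ0 : 0 < Q := by linarith
  have hQ3 : 8 ≤ Q ^ 3 := by
    have := pow_le_pow_left₀ (by norm_num : (0 : ℝ) ≤ 2) hQ 3
    linarith
  have hθ0 : 0 < |θ| := lt_of_lt_of_le (by positivity) hθ
  set L := ⌊Q ^ 3 / 2⌋₊ with hLd
  have hL1 : (L : ℝ) ≤ Q ^ 3 / 2 := Nat.floor_le (by positivity)
  have hL2 : Q ^ 3 / 2 < L + 1 := Nat.lt_floor_add_one _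
  have hL3 : Q ^ 3 / 4 ≤ L := by linarith
  have hL4 : 3 ≤ L := by
    have : (3 : ℝ) ≤ L := by linarith
    exact_mod_cast this
  have hLn : (L : ℝ) ≤ n := by
    rcases hs with ⟨h1, _⟩ | ⟨_, h1⟩ <;> linarith
  have hLn' : L ≤ n := by exact_mod_cast hLn
  have ha0 : 0 ≤ 1 - r := by linarith
  have hLa : L * (1 - r) ≤ 1 / 2 := by
    rcases hs with ⟨h1, h2⟩ | ⟨h1, _⟩
    · have : L * (1 - r) ≤ n / 2 * (1 - r) := by
        apply mul_le_mul_of_nonneg_right _ ha0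
        linarith
      linarith
    · have : L * (1 - r) ≤ Q ^ 3 / 2 * (1 - r) := mul_le_mul_of_nonneg_right hL1 ha0
      linarith
  have hrL : 1 / 2 ≤ r ^ L := by
    have h1 := one_add_mul_le_pow (a := -(1 - r)) (by linarith) L
    have e : 1 + -(1 - r) = r := by ring
    rw [e] at h1
    linarith
  have hS : S r (n + 1) ≤ 2 * Q ^ 3 := by
    rcases hs with ⟨h1, _⟩ | ⟨h1, _⟩
    · unfold S
      calc ∑ l ∈ range (n + 1), r ^ l ≤ ∑ l ∈ range (n + 1), (1 : ℝ) :=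
            sum_le_sum fun l _ => pow_le_one₀ hr.le hr1
        _ = n + 1 := by simp
        _ ≤ _ := by
          rw [← h1]
          have : (1 : ℝ) ≤ n := by exact_mod_cast hn
          linarith
    · have h2 : (1 - r) * S r (n + 1) = 1 - r ^ (n + 1) := mul_neg_geom_sum r (n + 1)
      have h3 : 0 ≤ r ^ (n + 1) := pow_nonneg hr.le _
      have h4 : S r (n + 1) = (1 - r ^ (n + 1)) * Q ^ 3 := by
        rw [← h2]
        linear_combination (-S r (n + 1)) * h1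
      rw [h4]
      nlinarith
  have hSp := S_pos hr.le (by omega : 1 ≤ n + 1)
  -- the choice of `d`
  have hchoice : ∃ d : ℕ, 1 ≤ d ∧ 2 * d ≤ L ∧
      96 * (c1 * Q) ≤ (1 - Real.cos (d * θ)) * L := by
    have hcos : ∀ d : ℕ, Real.cos (d * θ) = Real.cos (d * |θ|) := by
      intro d
      rcases abs_choice θ with h | h
      · rw [h]
      · rw [h, mul_neg, Real.cos_neg]
    by_cases hcase : ((L / 2 : ℕ) : ℝ) * |θ| ≤ Real.pi
    · refine ⟨L / 2, by omega, by omega, ?_⟩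
      rw [hcos]
      set x := ((L / 2 : ℕ) : ℝ) * |θ| with hx
      have hx0 : 0 ≤ x := by positivity
      have h1 : Real.cos x ≤ 1 - 2 / Real.pi ^ 2 * x ^ 2 :=
        Real.cos_le_one_sub_mul_cos_sq (by rwa [abs_of_nonneg hx0])
      have h2 : 1 / 5 ≤ 2 / Real.pi ^ 2 := by
        rw [div_le_div_iff₀ (by norm_num) (by positivity)]
        have := Real.pi_lt_d2
        have := Real.pi_pos
        nlinarith
      have h3 : (L : ℝ) / 3 ≤ ((L / 2 : ℕ) : ℝ) := by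
        have h4 : L ≤ 3 * (L / 2) := by omega
        have h5 : (L : ℝ) ≤ ((3 * (L / 2) : ℕ) : ℝ) := by exact_mod_cast h4
        push_cast at h5
        linarith
      have h6 : (L : ℝ) / 3 * |θ| ≤ x := mul_le_mul_of_nonneg_right h3 hθ0.le
      have h7 : ((L : ℝ) / 3 * |θ|) ^ 2 ≤ x ^ 2 := by gcongr
      have h8 : 1 / 5 * ((L : ℝ) / 3 * |θ|) ^ 2 ≤ 1 - Real.cos x := by
        have := mul_le_mul h2 h7 (by positivity) (by positivity)
        linarith
      have h9 : 1 / 5 * ((L : ℝ) / 3 * |θ|) ^ 2 * L ≤ (1 - Real.cos x) * L :=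
        mul_le_mul_of_nonneg_right h8 (Nat.cast_nonneg L)
      refine le_trans ?_ h9
      have h10 : (Q ^ 3 / 4) ^ 3 * (1 / (16 * Q ^ 4)) ^ 2 ≤ (L : ℝ) ^ 3 * |θ| ^ 2 := by
        gcongr
      have h11 : (Q ^ 3 / 4) ^ 3 * (1 / (16 * Q ^ 4)) ^ 2 = Q / 16384 := by
        field_simp
        norm_num
      rw [h11] at h10
      unfold c1
      have h12 : 1 / 5 * ((L : ℝ) / 3 * |θ|) ^ 2 * L = (L : ℝ) ^ 3 * |θ| ^ 2 / 45 := by ring
      rw [h12]
      linarith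
    · push Not at hcase
      have hp := Real.pi_pos
      have hd1 : 1 ≤ ⌊Real.pi / |θ|⌋₊ := by
        rw [Nat.one_le_floor_iff, le_div_iff₀ hθ0]
        linarith
      have hd2 : (⌊Real.pi / |θ|⌋₊ : ℝ) ≤ Real.pi / |θ| := Nat.floor_le (by positivity)
      have hd3 : Real.pi / |θ| < ⌊Real.pi / |θ|⌋₊ + 1 := Nat.lt_floor_add_one _
      refine ⟨⌊Real.pi / |θ|⌋₊, hd1, ?_, ?_⟩
      · have h1 : Real.pi / |θ| < ((L / 2 : ℕ) : ℝ) := by
          rw [div_lt_iff₀ hθ0]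
          exact hcase
        have h2 : ⌊Real.pi / |θ|⌋₊ < L / 2 := by exact_mod_cast hd2.trans_lt h1
        omega
      · rw [hcos]
        have h1 : (⌊Real.pi / |θ|⌋₊ : ℝ) * |θ| ≤ Real.pi := by
          rwa [le_div_iff₀ hθ0] at hd2
        have h2 : Real.pi < (⌊Real.pi / |θ|⌋₊ + 1 : ℝ) * |θ| := by
          rwa [div_lt_iff₀ hθ0] at hd3
        have h3 : Real.pi / 2 ≤ (⌊Real.pi / |θ|⌋₊ : ℝ) * |θ| := by
          rcases le_total |θ| (Real.pi / 2) with h | h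
          · linarith
          · have : (1 : ℝ) ≤ ⌊Real.pi / |θ|⌋₊ := by exact_mod_cast hd1
            nlinarith
        have h4 : Real.cos ((⌊Real.pi / |θ|⌋₊ : ℝ) * |θ|) ≤ 0 :=
          Real.cos_nonpos_of_pi_div_two_le_of_le h3 (by linarith)
        have h5 : (L : ℝ) ≤ (1 - Real.cos ((⌊Real.pi / |θ|⌋₊ : ℝ) * |θ|)) * L := by
          have : (0 : ℝ) ≤ L := Nat.cast_nonneg L
          nlinarith
        refine le_trans ?_ h5
        refine le_trans ?_ hL3
        unfold c1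
        nlinarith [sq_nonneg Q, sq_nonneg (Q - 2)]
  obtain ⟨d, hd1, hd2, hd3⟩ := hchoice
  set q := L / (2 * d) with hq
  have hq1 : 2 * d * q ≤ L := Nat.mul_div_le L (2 * d)
  have hq2 : L < 2 * d * (q + 1) := Nat.lt_mul_div_succ L (by omega)
  have hq3 : 1 ≤ q := Nat.div_pos hd2 (by omega)
  have hq4 : L ≤ 4 * (d * q) := by nlinarith
  have hq5 : (L : ℝ) ≤ 4 * ((d * q : ℕ) : ℝ) := by exact_mod_cast hq4
  have h1 := norm_Phi_le hn h hr hr1 k θ (hq1.trans hLn')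
    (hrL.trans (pow_le_pow_of_le_one hr.le hr1 hq1))
  refine h1.trans ?_
  set c := Real.cos (d * θ) with hc
  have hc1 : c ≤ 1 := Real.cos_le_one _
  have hc2 : -1 ≤ c := Real.neg_one_le_cos _
  have h2 : (1 - (1 - c) / 24) ^ (d * q) ≤ Real.exp (-(c1 * Q)) := by
    have h3 : 1 - (1 - c) / 24 ≤ Real.exp (-((1 - c) / 24)) := by
      have := Real.add_one_le_exp (-((1 - c) / 24))
      linarith
    calc (1 - (1 - c) / 24) ^ (d * q) ≤ Real.exp (-((1 - c) / 24)) ^ (d * q) := by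
          gcongr
          linarith
      _ = Real.exp (-((1 - c) / 24 * (d * q : ℕ))) := by
          rw [← Real.exp_nat_mul]
          congr 1
          ring
      _ ≤ _ := by
          apply Real.exp_le_exp.mpr
          apply neg_le_neg
          have h4 : (1 - c) * L ≤ (1 - c) * (4 * ((d * q : ℕ) : ℝ)) :=
            mul_le_mul_of_nonneg_left hq5 (by linarith)
          linarith
  calc 4 * S r (n + 1) ^ 2 * (1 - (1 - c) / 24) ^ (d * q)
      ≤ 4 * (2 * Q ^ 3) ^ 2 * Real.exp (-(c1 * Q)) := by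
        gcongr
        apply pow_nonneg
        linarith
    _ = _ := by ring

/-! ### the integrals -/

/-- the tilted coefficients -/
noncomputable def P (C : ℚ[X]) (r : ℝ) (j : ℕ) : ℝ := (C.coeff j : ℝ) * r ^ j / aeval r C

lemma Phi_re (C : ℚ[X]) (r k θ : ℝ) {N : ℕ} (hN : C.natDegree < N) :
    (Phi C r k θ).re = ∑ j ∈ range N, P C r j * Real.cos ((j - k) * θ) := by
  unfold Phi
  rw [Complex.div_ofReal_re, aeval_eq_sum_range' hN, sum_mul, Complex.re_sum, sum_div]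
  refine sum_congr rfl fun j _ => ?_
  have e : (C.coeff j • zz r θ ^ j) * Complex.exp ((-(k * θ) : ℝ) * Complex.I) =
      ((C.coeff j * r ^ j : ℝ) : ℂ) * Complex.exp (((j - k) * θ : ℝ) * Complex.I) := by
    have e3 : Complex.exp ((j * θ : ℝ) * Complex.I) * Complex.exp ((-(k * θ) : ℝ) * Complex.I) =
        Complex.exp (((j - k) * θ : ℝ) * Complex.I) := by
      rw [← Complex.exp_add]
      congr 1
      push_cast
      ring
    rw [zz_pow, Rat.smul_def, ← e3]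
    push_cast
    ring
  rw [e, Complex.re_ofReal_mul, Complex.exp_ofReal_mul_I_re, P]
  ring

lemma int_cos (m : ℤ) : ∫ θ in (-Real.pi)..Real.pi, Real.cos (m * θ) =
    if m = 0 then 2 * Real.pi else 0 := by
  split_ifs with h
  · subst h
    simp
    ring
  · have hm : (m : ℝ) ≠ 0 := by exact_mod_cast h
    rw [intervalIntegral.integral_comp_mul_left (fun x => Real.cos x) hm, integral_cos,
      mul_neg, Real.sin_neg, Real.sin_int_mul_pi]
    simp

lemma continuous_Phi_re (C : ℚ[X]) (r k : ℝ) : Continuous fun θ => (Phi C r k θ).re := by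
  have : (fun θ => (Phi C r k θ).re) = fun θ =>
      ∑ j ∈ range (C.natDegree + 1), P C r j * Real.cos ((j - k) * θ) := by
    funext θ
    exact Phi_re C r k θ (Nat.lt_succ_self _)
  rw [this]
  fun_prop

lemma int_one (C : ℚ[X]) (r : ℝ) (k : ℕ) :
    ∫ θ in (-Real.pi)..Real.pi, (Phi C r k θ).re = 2 * Real.pi * P C r k := by
  set N := C.natDegree + k + 2 with hN
  have h1 : (fun θ => (Phi C r k θ).re) = fun θ =>
      ∑ j ∈ range N, P C r j * Real.cos (((j : ℤ) - (k : ℤ) : ℤ) * θ) := by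
    funext θ
    rw [Phi_re C r k θ (by omega : C.natDegree < N)]
    refine sum_congr rfl fun j _ => ?_
    push_cast
    rfl
  rw [h1, intervalIntegral.integral_finsetSum]
  · simp_rw [intervalIntegral.integral_const_mul, int_cos]
    rw [sum_eq_single k]
    · simp
      ring
    · intro j _ hj
      rw [if_neg (by omega)]
      simp
    · intro hk
      exact absurd (mem_range.mpr (by omega)) hk
  · intro j _
    exact Continuous.intervalIntegrable (by fun_prop) _ _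

lemma int_cosine (C : ℚ[X]) (r : ℝ) (k : ℕ) :
    ∫ θ in (-Real.pi)..Real.pi, (Phi C r (k + 1 : ℕ) θ).re * Real.cos θ =
      Real.pi * (P C r k + P C r (k + 2)) := by
  set N := C.natDegree + k + 3 with hN
  have h1 : (fun θ => (Phi C r (k + 1 : ℕ) θ).re * Real.cos θ) = fun θ =>
      ∑ j ∈ range N, (P C r j / 2 * Real.cos (((j : ℤ) - (k : ℤ) : ℤ) * θ) +
        P C r j / 2 * Real.cos (((j : ℤ) - ((k + 2 : ℕ) : ℤ) : ℤ) * θ)) := by
    funext θ
    rw [Phi_re C r _ θ (by omega : C.natDegree < N), sum_mul]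
    refine sum_congr rfl fun j _ => ?_
    have e1 : (((j : ℤ) - (k : ℤ) : ℤ) : ℝ) * θ = ((j : ℝ) - ((k + 1 : ℕ) : ℝ)) * θ + θ := by
      push_cast; ring
    have e2 : (((j : ℤ) - ((k + 2 : ℕ) : ℤ) : ℤ) : ℝ) * θ =
        ((j : ℝ) - ((k + 1 : ℕ) : ℝ)) * θ - θ := by
      push_cast; ring
    rw [e1, e2, Real.cos_add, Real.cos_sub]
    ring
  rw [h1, intervalIntegral.integral_finsetSum]
  · have h2 : ∀ j ∈ range N, ∫ θ in (-Real.pi)..Real.pi,
        (P C r j / 2 * Real.cos (((j : ℤ) - (k : ℤ) : ℤ) * θ) +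
          P C r j / 2 * Real.cos (((j : ℤ) - ((k + 2 : ℕ) : ℤ) : ℤ) * θ)) =
        P C r j / 2 * (if j = k then 2 * Real.pi else 0) +
          P C r j / 2 * (if j = k + 2 then 2 * Real.pi else 0) := by
      intro j _
      rw [intervalIntegral.integral_add]
      · rw [intervalIntegral.integral_const_mul, intervalIntegral.integral_const_mul,
          int_cos, int_cos]
        have e1 : ((j : ℤ) - (k : ℤ) = 0) = (j = k) := by
          apply propext; omega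
        have e2 : ((j : ℤ) - ((k + 2 : ℕ) : ℤ) = 0) = (j = k + 2) := by
          apply propext; omega
        simp only [e1, e2]
      · exact Continuous.intervalIntegrable (by fun_prop) _ _
      · exact Continuous.intervalIntegrable (by fun_prop) _ _
    rw [sum_congr rfl h2, sum_add_distrib]
    simp only [mul_ite, mul_zero, sum_ite_eq', mem_range]
    rw [if_pos (by omega), if_pos (by omega)]
    ring
  · intro j _
    exact Continuous.intervalIntegrable (by fun_prop) _ _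

lemma int_lower {f : ℝ → ℝ} (hf : Continuous f) {θ0 ε : ℝ} (h0 : 0 < θ0) (h1 : θ0 ≤ Real.pi)
    (hε : 0 ≤ ε) (hlow : ∀ θ, |θ| ≤ Real.pi → -ε ≤ f θ)
    (hmid : ∀ θ, |θ| ≤ θ0 → θ ^ 2 / 20 ≤ f θ) :
    θ0 ^ 3 / 30 - 2 * Real.pi * ε ≤ ∫ θ in (-Real.pi)..Real.pi, f θ := by
  have hi : ∀ a b : ℝ, IntervalIntegrable f MeasureTheory.volume a b :=
    fun a b => hf.intervalIntegrable a b
  rw [← intervalIntegral.integral_add_adjacent_intervals (hi (-Real.pi) (-θ0)) (hi _ _),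
    ← intervalIntegral.integral_add_adjacent_intervals (hi (-θ0) θ0) (hi _ _)]
  have e1 : -ε * (-θ0 - -Real.pi) ≤ ∫ θ in (-Real.pi)..(-θ0), f θ := by
    have := intervalIntegral.integral_mono_on (f := fun _ => -ε) (g := f)
      (by linarith : -Real.pi ≤ -θ0) (Continuous.intervalIntegrable (by fun_prop) _ _) (hi _ _)
      (fun x hx => hlow x (abs_le.mpr ⟨hx.1, by linarith [hx.2]⟩))
    rw [intervalIntegral.integral_const, smul_eq_mul] at this
    linarith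
  have e2 : -ε * (Real.pi - θ0) ≤ ∫ θ in θ0..Real.pi, f θ := by
    have := intervalIntegral.integral_mono_on (f := fun _ => -ε) (g := f)
      h1 (Continuous.intervalIntegrable (by fun_prop) _ _) (hi _ _)
      (fun x hx => hlow x (abs_le.mpr ⟨by linarith [hx.1], hx.2⟩))
    rw [intervalIntegral.integral_const, smul_eq_mul] at this
    linarith
  have e3 : θ0 ^ 3 / 30 ≤ ∫ θ in (-θ0)..θ0, f θ := by
    have := intervalIntegral.integral_mono_on (f := fun θ => θ ^ 2 / 20) (g := f)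
      (by linarith : -θ0 ≤ θ0) (Continuous.intervalIntegrable (by fun_prop) _ _) (hi _ _)
      (fun x hx => hmid x (abs_le.mpr hx))
    rw [intervalIntegral.integral_div, integral_pow] at this
    norm_num at this
    linarith [this]
  nlinarith

lemma exists_Q0 : ∃ Q0 : ℝ, 2 ≤ Q0 ∧ ∀ Q, Q0 ≤ Q →
    2 * Real.pi * (32 * Q ^ 6 * Real.exp (-(c1 * Q))) < (1 / (16 * Q ^ 5)) ^ 3 / 30 := by
  have hc : 0 < c1 := by unfold c1; norm_num
  have h1 := Real.tendsto_pow_mul_exp_neg_atTop_nhds_zero 21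
  have h2 : Filter.Tendsto (fun Q : ℝ => c1 * Q) Filter.atTop Filter.atTop :=
    Filter.tendsto_id.const_mul_atTop hc
  have h3 := h1.comp h2
  have hp := Real.pi_pos
  have hδ : 0 < c1 ^ 21 / (30 * 4096 * (64 * Real.pi)) := by positivity
  have h4 := (h3.eventually (gt_mem_nhds hδ)).and (Filter.eventually_ge_atTop (2 : ℝ))
  obtain ⟨Q1, hQ1⟩ := Filter.eventually_atTop.mp h4
  refine ⟨max Q1 2, le_max_right _ _, fun Q hQ => ?_⟩
  obtain ⟨h5, h6⟩ := hQ1 Q ((le_max_left _ _).trans hQ)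
  simp only [Function.comp_apply] at h5
  have hQ0 : 0 < Q := by linarith
  rw [lt_div_iff₀ (by positivity)] at h5
  have h7 : (1 / (16 * Q ^ 5)) ^ 3 / 30 = 1 / (30 * 4096 * Q ^ 15) := by
    field_simp
    norm_num
  rw [h7, lt_div_iff₀ (by positivity)]
  have h8 : (c1 * Q) ^ 21 * Real.exp (-(c1 * Q)) * (30 * 4096 * (64 * Real.pi)) =
      c1 ^ 21 * (2 * Real.pi * (32 * Q ^ 6 * Real.exp (-(c1 * Q))) * (30 * 4096 * Q ^ 15)) := by
    ring
  rw [h8] at h5
  have h9 : 0 < c1 ^ 21 := by positivity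
  by_contra h10
  push Not at h10
  have := mul_le_mul_of_nonneg_left h10 h9.le
  linarith

/-- the local inequality -/
lemma local_ineq {n : ℕ} (hn : 1 ≤ n) {C : ℚ[X]} (h : qi (n + 1) * qf n * qf n * C = qf (2 * n))
    {r Q : ℝ} (hr : 0 < r) (hr1 : r ≤ 1) (hQ : 2 ≤ Q)
    (hQ2 : 2 * Real.pi * (32 * Q ^ 6 * Real.exp (-(c1 * Q))) < (1 / (16 * Q ^ 5)) ^ 3 / 30)
    (hs : Scale n r Q) {k : ℕ} (hk : mean n r = (k + 1 : ℕ)) :
    0 < P C r k + P C r (k + 2) ∧ P C r k + P C r (k + 2) < 2 * P C r (k + 1) := by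
  have hC := cat_prod n hn C h
  have hQ0 : 0 < Q := by linarith
  have hQ1 : 1 ≤ Q := by linarith
  have hp := Real.pi_pos
  have hp3 := Real.pi_gt_three
  set ε := 16 * Q ^ 6 * Real.exp (-(c1 * Q)) with hε
  have hε0 : 0 ≤ ε := by positivity
  set θ0 := 1 / (16 * Q ^ 5) with hθ0
  have hθ0p : 0 < θ0 := by positivity
  have hθ01 : θ0 ≤ 1 := by
    rw [hθ0, div_le_one (by positivity)]
    have := one_le_pow₀ hQ1 (n := 5)
    linarith
  have hθ04 : θ0 ≤ 1 / (16 * Q ^ 4) := by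
    rw [hθ0]
    apply div_le_div_of_nonneg_left (by norm_num) (by positivity)
    have := pow_le_pow_right₀ hQ1 (by norm_num : 4 ≤ 5)
    linarith
  have hlow : ∀ w : ℝ → ℝ, (∀ θ, |w θ| ≤ 2) → (∀ θ, |θ| ≤ 1 → 0 ≤ w θ) → ∀ θ, |θ| ≤ Real.pi →
      -(2 * ε) ≤ (Phi C r (k + 1 : ℕ) θ).re * w θ := by
    intro w hw1 hw2 θ hθ
    rcases le_total |θ| (1 / (16 * Q ^ 4)) with h1 | h1
    · have h2 := (est_a hC hr hr1 hQ1 hs h1).1
      rw [hk] at h2
      have h3 : 0 ≤ w θ := by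
        apply hw2
        refine h1.trans ?_
        rw [div_le_one (by positivity)]
        have := one_le_pow₀ hQ1 (n := 4)
        linarith
      have h4 : 0 ≤ (Phi C r (k + 1 : ℕ) θ).re := le_trans (by positivity) h2
      have := mul_nonneg h4 h3
      linarith
    · have h2 := est_c hn h hr hr1 hQ hs (k + 1 : ℕ) h1 hθ
      have h3 : |(Phi C r (k + 1 : ℕ) θ).re| ≤ ε := (Complex.abs_re_le_norm _).trans h2
      have h4 : |(Phi C r (k + 1 : ℕ) θ).re * w θ| ≤ ε * 2 := by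
        rw [abs_mul]
        exact mul_le_mul h3 (hw1 θ) (abs_nonneg _) hε0
      have := (abs_le.mp h4).1
      linarith
  have hmid : ∀ w : ℝ → ℝ, (∀ θ, |θ| ≤ 1 → θ ^ 2 / 5 ≤ w θ) → ∀ θ, |θ| ≤ θ0 →
      θ ^ 2 / 20 ≤ (Phi C r (k + 1 : ℕ) θ).re * w θ := by
    intro w hw θ hθ
    obtain ⟨h1, h2⟩ := est_a hC hr hr1 hQ1 hs (hθ.trans hθ04)
    have h3 := h2 hθ
    rw [hk] at h1 h3
    have h4 : 1 / 4 ≤ (Phi C r (k + 1 : ℕ) θ).re := by linarith
    have h5 := hw θ (hθ.trans hθ01)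
    have h6 : 1 / 4 * (θ ^ 2 / 5) ≤ (Phi C r (k + 1 : ℕ) θ).re * w θ :=
      mul_le_mul h4 h5 (by positivity) (by linarith)
    linarith
  have hcosb : ∀ θ : ℝ, |θ| ≤ 1 → 1 / 2 ≤ Real.cos θ := by
    intro θ hθ
    have h1 : 1 - θ ^ 2 / 2 ≤ Real.cos θ := Real.one_sub_sq_div_two_le_cos
    have h2 : θ ^ 2 ≤ 1 := by
      rw [← sq_abs]
      exact pow_le_one₀ (abs_nonneg _) hθ
    linarith
  have hcosc : ∀ θ : ℝ, |θ| ≤ 1 → θ ^ 2 / 5 ≤ 1 - Real.cos θ := by
    intro θ hθ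
    have h1 : Real.cos θ ≤ 1 - 2 / Real.pi ^ 2 * θ ^ 2 :=
      Real.cos_le_one_sub_mul_cos_sq (by linarith)
    have h2 : 1 / 5 ≤ 2 / Real.pi ^ 2 := by
      rw [div_le_div_iff₀ (by norm_num) (by positivity)]
      have := Real.pi_lt_d2
      nlinarith
    have := mul_le_mul_of_nonneg_right h2 (sq_nonneg θ)
    linarith
  have hcosd : ∀ θ : ℝ, |θ| ≤ 1 → θ ^ 2 / 5 ≤ Real.cos θ := by
    intro θ hθ
    have h1 := hcosb θ hθ
    have h2 : θ ^ 2 ≤ 1 := by
      rw [← sq_abs]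
      exact pow_le_one₀ (abs_nonneg _) hθ
    linarith
  have hcont := continuous_Phi_re C r (k + 1 : ℕ)
  have I1 := int_lower (f := fun θ => (Phi C r (k + 1 : ℕ) θ).re * Real.cos θ)
    (hcont.mul Real.continuous_cos) hθ0p (by linarith) (by positivity : 0 ≤ 2 * ε)
    (hlow Real.cos (fun θ => (Real.abs_cos_le_one θ).trans (by norm_num))
      (fun θ hθ => by linarith [hcosb θ hθ]))
    (hmid Real.cos hcosd)
  have I2 := int_lower (f := fun θ => (Phi C r (k + 1 : ℕ) θ).re * (1 - Real.cos θ))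
    (hcont.mul (continuous_const.sub Real.continuous_cos)) hθ0p (by linarith)
    (by positivity : 0 ≤ 2 * ε)
    (hlow (fun θ => 1 - Real.cos θ) (fun θ => by
        have h1 := Real.cos_le_one θ
        have h2 := Real.neg_one_le_cos θ
        rw [abs_le]
        constructor <;> linarith)
      (fun θ _ => by linarith [Real.cos_le_one θ]))
    (hmid (fun θ => 1 - Real.cos θ) hcosc)
  rw [int_cosine] at I1
  have e1 : ∫ θ in (-Real.pi)..Real.pi, (Phi C r (k + 1 : ℕ) θ).re * (1 - Real.cos θ) =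
      2 * Real.pi * P C r (k + 1) - Real.pi * (P C r k + P C r (k + 2)) := by
    rw [← int_cosine, ← int_one, ← intervalIntegral.integral_sub]
    · congr 1
      funext θ
      ring
    · exact hcont.intervalIntegrable _ _
    · exact (hcont.mul Real.continuous_cos).intervalIntegrable _ _
  rw [e1] at I2
  have e2 : 2 * Real.pi * (2 * ε) = 2 * Real.pi * (32 * Q ^ 6 * Real.exp (-(c1 * Q))) := by
    rw [hε]; ring
  rw [e2] at I1 I2
  constructor
  · by_contra h1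
    push Not at h1
    have := mul_nonpos_of_nonneg_of_nonpos hp.le h1
    linarith
  · by_contra h1
    push Not at h1
    have := mul_le_mul_of_nonneg_left h1 hp.le
    linarith

lemma coeff_of_P {C : ℚ[X]} {r : ℝ} (hr : 0 < r) (hC : 0 < aeval r C) {k : ℕ}
    (h1 : 0 < P C r k + P C r (k + 2)) (h2 : P C r k + P C r (k + 2) < 2 * P C r (k + 1)) :
    0 < C.coeff (k + 1) ∧ C.coeff k * C.coeff (k + 2) < C.coeff (k + 1) ^ 2 := by
  have h3 : 0 < P C r (k + 1) := by linarith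
  have h4 : P C r k * P C r (k + 2) < P C r (k + 1) ^ 2 := by
    nlinarith [sq_nonneg (P C r k - P C r (k + 2))]
  have hrk : 0 < r ^ (k + 1) := pow_pos hr _
  have h5 : (0 : ℝ) < C.coeff (k + 1) := by
    unfold P at h3
    have h6 : 0 < (C.coeff (k + 1) : ℝ) * r ^ (k + 1) := by
      rcases (div_pos_iff.mp h3) with h | h
      · exact h.1
      · linarith [h.2]
    exact (pos_iff_pos_of_mul_pos h6).mpr hrk
  refine ⟨by exact_mod_cast h5, ?_⟩
  have h6 : P C r k * P C r (k + 2) =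
      ((C.coeff k : ℝ) * C.coeff (k + 2)) * (r ^ (k + 1) / aeval r C) ^ 2 := by
    unfold P
    field_simp
    ring
  have h7 : P C r (k + 1) ^ 2 = (C.coeff (k + 1) : ℝ) ^ 2 * (r ^ (k + 1) / aeval r C) ^ 2 := by
    unfold P
    field_simp
  rw [h6, h7] at h4
  have h8 : 0 < (r ^ (k + 1) / aeval r C) ^ 2 := by positivity
  have h9 := lt_of_mul_lt_mul_right h4 h8.le
  exact_mod_cast h9

/-- the lower half -/
lemma lower_half : ∃ t N : ℕ, ∀ n : ℕ, N ≤ n → ∀ C : ℚ[X],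
    qi (n + 1) * qf n * qf n * C = qf (2 * n) → ∀ k : ℕ, t ≤ k + 1 →
    2 * (k + 1) + n ≤ n * n →
    0 < C.coeff (k + 1) ∧ C.coeff k * C.coeff (k + 2) < C.coeff (k + 1) ^ 2 := by
  obtain ⟨Q0, hQ0, hQ⟩ := exists_Q0
  refine ⟨⌈Q0 ^ 9⌉₊ + 1, ⌈Q0 ^ 3⌉₊ + 1, fun n hn C h k hk hk2 => ?_⟩
  have hn1 : 1 ≤ n := by omega
  have hn2 : Q0 ^ 3 ≤ n := by
    refine (Nat.le_ceil _).trans ?_
    exact_mod_cast (by omega : ⌈Q0 ^ 3⌉₊ ≤ n)
  have hk3 : Q0 ^ 9 ≤ ((k + 1 : ℕ) : ℝ) := by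
    refine (Nat.le_ceil _).trans ?_
    exact_mod_cast (by omega : ⌈Q0 ^ 9⌉₊ ≤ k + 1)
  have hk4 : ((k + 1 : ℕ) : ℝ) ≤ n * (n - 1) / 2 := by
    have : ((2 * (k + 1) + n : ℕ) : ℝ) ≤ ((n * n : ℕ) : ℝ) := by exact_mod_cast hk2
    push_cast at this ⊢
    linarith
  obtain ⟨r, hr, hr1, hrk⟩ := exists_r n hn1 (by positivity : (0 : ℝ) < ((k + 1 : ℕ) : ℝ)) hk4
  have hC0 : 0 < aeval r C := aeval_C_pos (cat_prod n hn1 C h) hr.le
  have hn0 : (0 : ℝ) < n := by exact_mod_cast hn1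
  have hcube : ∀ M : ℝ, 0 ≤ M → (M ^ ((3 : ℝ)⁻¹)) ^ 3 = M := by
    intro M hM
    rw [← Real.rpow_natCast, ← Real.rpow_mul hM]
    norm_num
  have hge : ∀ M : ℝ, Q0 ^ 3 ≤ M → Q0 ≤ M ^ ((3 : ℝ)⁻¹) := by
    intro M hM
    have h0 : 0 ≤ M := le_trans (by positivity) hM
    by_contra h1
    push Not at h1
    have h2 := pow_lt_pow_left₀ h1 (by positivity) (by norm_num : (3 : ℕ) ≠ 0)
    rw [hcube M h0] at h2
    linarith
  obtain ⟨Q, hQQ, hs⟩ : ∃ Q : ℝ, Q0 ≤ Q ∧ Scale n r Q := by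
    rcases le_total (n * (1 - r)) 1 with hA | hB
    · exact ⟨(n : ℝ) ^ ((3 : ℝ)⁻¹), hge _ hn2, Or.inl ⟨(hcube _ hn0.le).symm, hA⟩⟩
    · have ha : 0 < 1 - r := by
        by_contra h1
        push Not at h1
        have := mul_nonpos_of_nonneg_of_nonpos hn0.le h1
        linarith
      have hr1' : r < 1 := by linarith
      have h1 := mean_le (n := n) hr hr1'
      rw [hrk] at h1
      have h2 : Q0 ^ 3 ≤ 1 / (1 - r) := by
        have h3 : (Q0 ^ 3) ^ 3 ≤ (1 / (1 - r)) ^ 3 := by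
          calc (Q0 ^ 3) ^ 3 = Q0 ^ 9 := by ring
            _ ≤ _ := hk3
            _ ≤ _ := h1
            _ = _ := by rw [div_pow, one_pow]
        exact le_of_pow_le_pow_left₀ (by norm_num) (by positivity) h3
      refine ⟨(1 / (1 - r)) ^ ((3 : ℝ)⁻¹), hge _ h2, Or.inr ⟨?_, ?_⟩⟩
      · rw [hcube _ (by positivity)]
        field_simp
      · rw [hcube _ (by positivity), div_le_iff₀ ha]
        exact hB
  obtain ⟨h1, h2⟩ := local_ineq hn1 h hr hr1 (hQ0.trans hQQ) (hQ Q hQQ) hs hrk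
  exact coeff_of_P hr hC0 h1 h2

/-- strict log-concavity away from the ends -/
theorem main : ∃ t N : ℕ, ∀ n : ℕ, N ≤ n → ∀ C : ℚ[X],
    qi (n + 1) * qf n * qf n * C = qf (2 * n) → ∀ k : ℕ, t ≤ k →
    k + 2 + t + n ≤ n * n →
    0 < C.coeff (k + 1) ∧ C.coeff k * C.coeff (k + 2) < C.coeff (k + 1) ^ 2 := by
  obtain ⟨t, N, hmain⟩ := lower_half
  refine ⟨t, N, fun n hn C h k hk hk2 => ?_⟩
  rcases le_total (2 * (k + 1) + n) (n * n) with h1 | h1
  · exact hmain n hn C h k (by omega) h1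
  · obtain ⟨k', hk'⟩ : ∃ k', k' + (k + 2) + n = n * n := ⟨n * n - n - (k + 2), by omega⟩
    obtain ⟨h2, h3⟩ := hmain n hn C h k' (by omega) (by omega)
    rw [cat_symm n C h (k' + 1) (k + 1) (by omega)] at h2 h3
    rw [cat_symm n C h k' (k + 2) (by omega), cat_symm n C h (k' + 2) k (by omega)] at h3
    exact ⟨h2, by rwa [mul_comm]⟩

end Pool.Agent.H165.QCat
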