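import Pool.Agent.H165.QCat.Alg
import Pool.Agent.H165.QCat.Arg

/-!
# The main arc
-/

set_option autoImplicit false

namespace Pool.Agent.H165.QCat

open Finset Polynomial

/-- `r e^{iθ}` -/
noncomputable def zz (r θ : ℝ) : ℂ := (r : ℂ) * Complex.exp (θ * Complex.I)

lemma zz_pow (r θ : ℝ) (j : ℕ) : zz r θ ^ j = (r : ℂ) ^ j * Complex.exp ((j * θ : ℝ) * Complex.I) := by
  unfold zz
  rw [mul_pow, ← Complex.exp_nat_mul]
  congr 2
  push_cast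
  ring

lemma aeval_qi {A : Type*} [CommRing A] [Algebra ℚ A] (z : A) (j : ℕ) :
    aeval z (qi j) = ∑ l ∈ range j, z ^ l := by
  simp [qi]

/-- `1 + r + ... + r ^ (j - 1)` -/
noncomputable def S (r : ℝ) (j : ℕ) : ℝ := ∑ l ∈ range j, r ^ l

lemma aeval_qi_zz {r : ℝ} (hr : 0 ≤ r) (θ : ℝ) {j : ℕ} (hj : 1 ≤ j) :
    aeval (zz r θ) (qi j) = V r θ j * (S r j : ℂ) * Complex.exp ((mu r j * θ : ℝ) * Complex.I) := by
  have h1 := sum_pos' hr hj
  have h2 : ((S r j : ℝ) : ℂ) ≠ 0 := by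
    rw [Complex.ofReal_ne_zero]
    unfold S
    linarith
  rw [aeval_qi, V, ← S, div_mul_cancel₀ _ h2, sum_mul]
  refine sum_congr rfl fun l _ => ?_
  rw [zz_pow, mul_assoc, ← Complex.exp_add]
  congr 2
  push_cast
  ring

/-- the mean -/
noncomputable def mean (n : ℕ) (r : ℝ) : ℝ :=
  ∑ i ∈ range (n - 1), (mu r (n + i + 2) - mu r (i + 2))

/-- normalised and centred value of the `q`-Catalan number -/
noncomputable def Phi (C : ℚ[X]) (r k θ : ℝ) : ℂ :=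
  aeval (zz r θ) C * Complex.exp ((-(k * θ) : ℝ) * Complex.I) / (aeval r C : ℝ)

lemma aeval_ofReal (r : ℝ) (P : ℚ[X]) : aeval (r : ℂ) P = ((aeval r P : ℝ) : ℂ) := by
  rw [← Complex.coe_algebraMap, aeval_algebraMap_apply]

lemma S_pos {r : ℝ} (hr : 0 ≤ r) {j : ℕ} (hj : 1 ≤ j) : 0 < S r j := by
  have := sum_pos' hr hj
  unfold S
  linarith

lemma aeval_C_real {n : ℕ} {C : ℚ[X]}
    (hC : C * ∏ i ∈ range (n - 1), qi (i + 2) = ∏ i ∈ range (n - 1), qi (n + i + 2)) (r : ℝ) :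
    aeval r C * ∏ i ∈ range (n - 1), S r (i + 2) = ∏ i ∈ range (n - 1), S r (n + i + 2) := by
  have h := congrArg (aeval r) hC
  simpa only [map_mul, map_prod, aeval_qi, S] using h

lemma aeval_C_pos {n : ℕ} {C : ℚ[X]}
    (hC : C * ∏ i ∈ range (n - 1), qi (i + 2) = ∏ i ∈ range (n - 1), qi (n + i + 2)) {r : ℝ}
    (hr : 0 ≤ r) : 0 < aeval r C := by
  have h := aeval_C_real hC r
  have h1 : 0 < ∏ i ∈ range (n - 1), S r (i + 2) := prod_pos fun i _ => S_pos hr (by omega)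
  have h2 : 0 < ∏ i ∈ range (n - 1), S r (n + i + 2) := prod_pos fun i _ => S_pos hr (by omega)
  by_contra h3
  push Not at h3
  have := mul_nonpos_of_nonpos_of_nonneg h3 h1.le
  rw [h] at this
  linarith

lemma Phi_mul {n : ℕ} {C : ℚ[X]}
    (hC : C * ∏ i ∈ range (n - 1), qi (i + 2) = ∏ i ∈ range (n - 1), qi (n + i + 2)) {r : ℝ}
    (hr : 0 ≤ r) (θ : ℝ) :
    Phi C r (mean n r) θ * ∏ i ∈ range (n - 1), V r θ (i + 2) =
      ∏ i ∈ range (n - 1), V r θ (n + i + 2) := by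
  have h := congrArg (aeval (zz r θ)) hC
  simp only [map_mul, map_prod] at h
  rw [prod_congr rfl fun i _ => aeval_qi_zz hr θ (by omega : 1 ≤ i + 2),
    prod_congr rfl fun i _ => aeval_qi_zz hr θ (by omega : 1 ≤ n + i + 2)] at h
  simp only [prod_mul_distrib] at h
  rw [← Complex.exp_sum, ← Complex.exp_sum] at h
  have h1 : (∏ i ∈ range (n - 1), (S r (n + i + 2) : ℂ)) =
      (aeval r C : ℝ) * ∏ i ∈ range (n - 1), (S r (i + 2) : ℂ) := by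
    have := congrArg (fun x : ℝ => (x : ℂ)) (aeval_C_real hC r)
    push_cast at this
    exact this.symm
  have h2 : ((aeval r C : ℝ) : ℂ) ≠ 0 := by
    rw [Complex.ofReal_ne_zero]
    exact (aeval_C_pos hC hr).ne'
  have h3 : (∏ i ∈ range (n - 1), (S r (i + 2) : ℂ)) ≠ 0 := by
    rw [prod_ne_zero_iff]
    intro i _
    rw [Complex.ofReal_ne_zero]
    exact (S_pos hr (by omega)).ne'
  have h4 : Complex.exp (∑ i ∈ range (n - 1), ((mu r (n + i + 2) * θ : ℝ) : ℂ) * Complex.I) =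
      Complex.exp (∑ i ∈ range (n - 1), ((mu r (i + 2) * θ : ℝ) : ℂ) * Complex.I) *
        Complex.exp ((mean n r * θ : ℝ) * Complex.I) := by
    rw [← Complex.exp_add, mean, sum_mul]
    congr 1
    push_cast
    rw [sum_mul, ← sum_add_distrib]
    refine sum_congr rfl fun i _ => ?_
    ring
  rw [h4, h1] at h
  have h5 : Complex.exp ((-(mean n r * θ) : ℝ) * Complex.I) *
      Complex.exp ((mean n r * θ : ℝ) * Complex.I) = 1 := by
    rw [← Complex.exp_add, Complex.ofReal_neg, neg_mul, neg_add_cancel, Complex.exp_zero]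
  have h6 := Complex.exp_ne_zero (∑ i ∈ range (n - 1), ((mu r (i + 2) * θ : ℝ) : ℂ) * Complex.I)
  unfold Phi
  rw [div_mul_eq_mul_div, div_eq_iff h2]
  apply mul_right_cancel₀ (mul_ne_zero h3 h6)
  linear_combination Complex.exp ((-(mean n r * θ) : ℝ) * Complex.I) * h +
    (∏ i ∈ range (n - 1), V r θ (n + i + 2)) * (aeval r C : ℝ) *
    (∏ i ∈ range (n - 1), (S r (i + 2) : ℂ)) *
    Complex.exp (∑ i ∈ range (n - 1), ((mu r (i + 2) * θ : ℝ) : ℂ) * Complex.I) * h5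

lemma Phi_eq {n : ℕ} {C : ℚ[X]}
    (hC : C * ∏ i ∈ range (n - 1), qi (i + 2) = ∏ i ∈ range (n - 1), qi (n + i + 2)) {r : ℝ}
    (hr : 0 ≤ r) (θ : ℝ) (hV : ∀ i ∈ range (n - 1), V r θ (i + 2) ≠ 0) :
    Phi C r (mean n r) θ = ∏ i ∈ range (n - 1), (V r θ (n + i + 2) / V r θ (i + 2)) := by
  rw [prod_div_distrib, eq_div_iff (prod_ne_zero_iff.mpr hV)]
  exact Phi_mul hC hr θ

/-- the case `n (1 - r) ≤ 1` -/
lemma main_A {n : ℕ} {C : ℚ[X]}
    (hC : C * ∏ i ∈ range (n - 1), qi (i + 2) = ∏ i ∈ range (n - 1), qi (n + i + 2)) {r : ℝ}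
    (hr : 0 ≤ r) {θ : ℝ} (hθ : 2 * n * |θ| ≤ 1) :
    Ar (Phi C r (mean n r) θ) (6 * n ^ 4 * |θ| ^ 3) ∧
      1 - 2 * n ^ 3 * θ ^ 2 ≤ ‖Phi C r (mean n r) θ‖ := by
  have hθ0 := abs_nonneg θ
  have hj : ∀ i ∈ range (n - 1), ((i + 2 : ℕ) : ℝ) * |θ| ≤ n * |θ| ∧
      ((n + i + 2 : ℕ) : ℝ) * |θ| ≤ 2 * n * |θ| := by
    intro i hi
    have hi' := mem_range.mp hi
    have h1 : ((i + 2 : ℕ) : ℝ) ≤ n := by exact_mod_cast (by omega : i + 2 ≤ n)
    have h2 : ((n + i + 2 : ℕ) : ℝ) ≤ 2 * n := by exact_mod_cast (by omega : n + i + 2 ≤ 2 * n)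
    exact ⟨mul_le_mul_of_nonneg_right h1 hθ0, mul_le_mul_of_nonneg_right h2 hθ0⟩
  have hn0 : (0 : ℝ) ≤ n := Nat.cast_nonneg n
  have hA : ∀ i ∈ range (n - 1), Ar (V r θ (i + 2)) ((n * |θ|) ^ 3 / 3) ∧
      Ar (V r θ (n + i + 2)) ((2 * n * |θ|) ^ 3 / 3) := by
    intro i hi
    obtain ⟨h1, h2⟩ := hj i hi
    have h3 : n * |θ| ≤ 1 := by nlinarith
    constructor
    · refine (Ar_V hr (by omega) (h1.trans h3)).mono ?_
      gcongr
    · refine (Ar_V hr (by omega) (h2.trans hθ)).mono ?_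
      gcongr
  have hV : ∀ i ∈ range (n - 1), V r θ (i + 2) ≠ 0 := by
    intro i hi h0
    have h1 := V_re_ge hr (by omega : 1 ≤ i + 2) θ
    rw [h0, Complex.zero_re] at h1
    have h2 := (hj i hi).1
    have h3 : (((i + 2 : ℕ) : ℝ) * θ) ^ 2 = (((i + 2 : ℕ) : ℝ) * |θ|) ^ 2 := by
      rw [mul_pow, mul_pow, sq_abs]
    have h4 : 0 ≤ ((i + 2 : ℕ) : ℝ) * |θ| := by positivity
    rw [h3] at h1
    nlinarith
  rw [Phi_eq hC hr θ hV]
  constructor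
  · refine (Ar.prod (range (n - 1)) _ (fun _ => (2 * n * |θ|) ^ 3 / 3 + (n * |θ|) ^ 3 / 3)
      fun i hi => (hA i hi).2.div (hA i hi).1).mono ?_
    rw [sum_const, card_range, nsmul_eq_mul]
    have h1 : ((n - 1 : ℕ) : ℝ) ≤ n := by exact_mod_cast Nat.sub_le n 1
    have h2 : 0 ≤ (2 * n * |θ|) ^ 3 / 3 + (n * |θ|) ^ 3 / 3 := by positivity
    calc _ ≤ (n : ℝ) * ((2 * n * |θ|) ^ 3 / 3 + (n * |θ|) ^ 3 / 3) :=
          mul_le_mul_of_nonneg_right h1 h2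
      _ = 3 * n ^ 4 * |θ| ^ 3 := by ring
      _ ≤ _ := by
        have : 0 ≤ (n : ℝ) ^ 4 * |θ| ^ 3 := by positivity
        nlinarith
  · rw [norm_prod]
    have h1 : ∀ i ∈ range (n - 1), 1 - 2 * n ^ 2 * θ ^ 2 ≤
        ‖V r θ (n + i + 2) / V r θ (i + 2)‖ := by
      intro i hi
      have h2 := V_re_ge hr (by omega : 1 ≤ n + i + 2) θ
      have h3 : (((n + i + 2 : ℕ) : ℝ) * θ) ^ 2 ≤ (2 * n * θ) ^ 2 := by
        have h4 := (hj i hi).2
        have h5 : 0 ≤ ((n + i + 2 : ℕ) : ℝ) * |θ| := by positivity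
        calc (((n + i + 2 : ℕ) : ℝ) * θ) ^ 2 = (((n + i + 2 : ℕ) : ℝ) * |θ|) ^ 2 := by
              rw [mul_pow, mul_pow, sq_abs]
          _ ≤ (2 * n * |θ|) ^ 2 := by gcongr
          _ = (2 * n * θ) ^ 2 := by rw [mul_pow _ |θ|, sq_abs, ← mul_pow]
      have h6 : ‖V r θ (n + i + 2)‖ ≤ ‖V r θ (n + i + 2) / V r θ (i + 2)‖ := by
        rw [norm_div, le_div_iff₀ (norm_pos_iff.mpr (hV i hi))]
        exact mul_le_of_le_one_right (norm_nonneg _) (norm_V_le hr (by omega) θ)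
      refine le_trans ?_ h6
      refine le_trans ?_ (Complex.re_le_norm _)
      refine le_trans ?_ h2
      nlinarith
    have h0 : 0 ≤ 1 - 2 * n ^ 2 * θ ^ 2 := by
      have : (2 * n * |θ|) ^ 2 ≤ 1 := by
        apply pow_le_one₀ (by positivity) hθ
      rw [mul_pow, sq_abs] at this
      nlinarith [sq_nonneg ((n : ℝ) * θ)]
    have h7 := prod_le_prod (s := range (n - 1)) (fun i _ => h0) h1
    refine le_trans ?_ h7
    rw [prod_const, card_range]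
    have h8 := one_add_mul_le_pow (a := -(2 * n ^ 2 * θ ^ 2 : ℝ)) (by linarith) (n - 1)
    rw [← sub_eq_add_neg] at h8
    refine le_trans ?_ h8
    have h9 : ((n - 1 : ℕ) : ℝ) ≤ n := by exact_mod_cast Nat.sub_le n 1
    have h10 : 0 ≤ 2 * (n : ℝ) ^ 2 * θ ^ 2 := by positivity
    nlinarith

/-! ### the case `r < 1` -/

lemma mu_eq {r : ℝ} (hr : 0 ≤ r) (hr1 : r < 1) {j : ℕ} (hj : 1 ≤ j) :
    mu r j = r / (1 - r) - j * r ^ j / (1 - r ^ j) := by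
  have h1 : 0 < 1 - r := by linarith
  have h2 : 0 < 1 - r ^ j := by
    have := pow_lt_one₀ hr hr1 (by omega : j ≠ 0)
    linarith
  have h3 : (1 - r) * ∑ l ∈ range j, r ^ l = 1 - r ^ j := mul_neg_geom_sum r j
  have h4 : (1 - r) ^ 2 * ∑ l ∈ range j, (l : ℝ) * r ^ l = r * (1 - r ^ j) - j * r ^ j * (1 - r) := by
    clear hj h2 h3
    induction j with
    | zero => simp
    | succ j ih =>
      rw [sum_range_succ, mul_add, ih]
      push_cast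
      ring
  have h5 : 0 < ∑ l ∈ range j, r ^ l := S_pos hr hj
  unfold mu
  rw [div_sub_div _ _ h1.ne' h2.ne', div_eq_div_iff h5.ne' (mul_pos h1 h2).ne', ← h3]
  apply mul_left_cancel₀ (pow_pos h1 2).ne'
  linear_combination ((1 - r) * ((1 - r) * ∑ l ∈ range j, r ^ l)) * h4 -
    (1 - r) ^ 2 * r * (∑ l ∈ range j, r ^ l) * h3

lemma V_eq_U {r : ℝ} (hr : 0 ≤ r) (hr1 : r < 1) (θ : ℝ) {j : ℕ} (hj : 1 ≤ j) :
    V r θ j = U r θ j / U r θ 1 := by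
  have h1 : 0 < 1 - r := by linarith
  have h2 : 0 < 1 - r ^ j := by
    have := pow_lt_one₀ hr hr1 (by omega : j ≠ 0)
    linarith
  have h3 : (1 - r) * S r j = 1 - r ^ j := mul_neg_geom_sum r j
  have hS := S_pos hr hj
  have h4 := aeval_qi_zz hr θ hj
  rw [aeval_qi] at h4
  have h5 : (1 - zz r θ) * ∑ l ∈ range j, zz r θ ^ l = 1 - zz r θ ^ j := mul_neg_geom_sum _ j
  rw [h4] at h5
  have h6 : 1 - zz r θ ≠ 0 := by
    intro h
    have h7 : ‖zz r θ‖ = 1 := by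
      rw [sub_eq_zero] at h
      rw [← h, norm_one]
    unfold zz at h7
    rw [norm_mul, Complex.norm_exp_ofReal_mul_I, mul_one, Complex.norm_of_nonneg hr] at h7
    linarith
  have h8 : U r θ 1 = (1 - zz r θ) / (1 - r : ℝ) *
      Complex.exp ((r / (1 - r) * θ : ℝ) * Complex.I) := by
    unfold U zz
    simp
  have h9 : U r θ j = (1 - zz r θ ^ j) / (1 - r ^ j : ℝ) *
      Complex.exp ((j * r ^ j / (1 - r ^ j) * θ : ℝ) * Complex.I) := by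
    unfold U
    rw [zz_pow]
  have h10 : Complex.exp ((r / (1 - r) * θ : ℝ) * Complex.I) =
      Complex.exp ((mu r j * θ : ℝ) * Complex.I) *
        Complex.exp ((j * r ^ j / (1 - r ^ j) * θ : ℝ) * Complex.I) := by
    rw [← Complex.exp_add, mu_eq hr hr1 hj]
    congr 1
    push_cast
    ring
  have h11 : ((1 - r : ℝ) : ℂ) ≠ 0 := Complex.ofReal_ne_zero.mpr h1.ne'
  have h12 : ((1 - r ^ j : ℝ) : ℂ) ≠ 0 := Complex.ofReal_ne_zero.mpr h2.ne'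
  have h13 : ((1 - r : ℝ) : ℂ) * (S r j : ℂ) = ((1 - r ^ j : ℝ) : ℂ) := by
    rw [← Complex.ofReal_mul, h3]
  rw [h8, h9, h10, eq_div_iff (mul_ne_zero (div_ne_zero h6 h11)
    (mul_ne_zero (Complex.exp_ne_zero _) (Complex.exp_ne_zero _))), ← h5, ← h13]
  have hS' : (S r j : ℂ) ≠ 0 := Complex.ofReal_ne_zero.mpr hS.ne'
  field_simp

/-- a root estimate: `j (1 - r) r ^ (j / 4) ≤ 4 (1 - r ^ j)` -/
lemma key_ineq {u : ℝ} (hu : 0 ≤ u) (hu1 : u ≤ 1) (j : ℕ) :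
    j * (1 - u ^ 4) * u ^ j ≤ 4 * (1 - (u ^ 4) ^ j) := by
  have h1 : (1 - u) * ∑ l ∈ range j, u ^ l = 1 - u ^ j := mul_neg_geom_sum u j
  have h2 : j * u ^ j ≤ ∑ l ∈ range j, u ^ l := by
    rw [← nsmul_eq_mul, ← card_range j, ← sum_const, card_range]
    exact sum_le_sum fun l hl => pow_le_pow_of_le_one hu hu1 (mem_range.mp hl).le
  have h3 : 1 - u ^ 4 ≤ 4 * (1 - u) := by
    have h := one_add_mul_le_pow (a := u - 1) (by linarith) 4
    push_cast at h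
    have : (1 + (u - 1)) = u := by ring
    rw [this] at h
    linarith
  have h4 : (u ^ 4) ^ j ≤ u ^ j := by
    rw [← pow_mul]
    exact pow_le_pow_of_le_one hu hu1 (by omega)
  have h5 : 0 ≤ j * u ^ j := by positivity
  calc j * (1 - u ^ 4) * u ^ j = (1 - u ^ 4) * (j * u ^ j) := by ring
    _ ≤ 4 * (1 - u) * (j * u ^ j) := mul_le_mul_of_nonneg_right h3 h5
    _ ≤ 4 * (1 - u) * ∑ l ∈ range j, u ^ l :=
        mul_le_mul_of_nonneg_left h2 (by linarith)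
    _ = 4 * (1 - u ^ j) := by rw [← h1]; ring
    _ ≤ _ := by linarith

/-- the local estimates in terms of `u = r ^ (1 / 4)` -/
lemma local_B {u : ℝ} (hu : 0 < u) (hu1 : u < 1) {j : ℕ} (hj : 1 ≤ j) (θ : ℝ) :
    (u ^ 4) ^ j * |j * θ| ^ 2 / (1 - (u ^ 4) ^ j) ^ 2 ≤ 16 * θ ^ 2 / (1 - u ^ 4) ^ 2 * u ^ j ∧
    (u ^ 4) ^ j * |j * θ| ^ 3 / (1 - (u ^ 4) ^ j) ^ 3 ≤ 64 * |θ| ^ 3 / (1 - u ^ 4) ^ 3 * u ^ j := by
  have h1 := key_ineq hu.le hu1.le j
  have h2 : 0 < 1 - u ^ 4 := by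
    have := pow_lt_one₀ hu.le hu1 (by norm_num : (4 : ℕ) ≠ 0)
    linarith
  have h3 : 0 < 1 - (u ^ 4) ^ j := by
    have := pow_lt_one₀ (pow_nonneg hu.le 4) (by linarith : u ^ 4 < 1) (by omega : j ≠ 0)
    linarith
  have h4 : 0 ≤ j * (1 - u ^ 4) * u ^ j := by positivity
  have h5 : 0 < u ^ j := pow_pos hu j
  have h6 : u ^ j ≤ 1 := pow_le_one₀ hu.le hu1.le
  have hj0 : (0 : ℝ) ≤ j := Nat.cast_nonneg j
  have e1 : |(j : ℝ) * θ| = j * |θ| := by rw [abs_mul, abs_of_nonneg hj0]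
  constructor
  · have h7 : (j * (1 - u ^ 4) * u ^ j) ^ 2 ≤ (4 * (1 - (u ^ 4) ^ j)) ^ 2 := by gcongr
    rw [e1, div_le_iff₀ (by positivity), div_mul_eq_mul_div, div_mul_eq_mul_div,
      le_div_iff₀ (by positivity)]
    have e2 : (u ^ 4) ^ j = (u ^ j) ^ 4 := by rw [← pow_mul, ← pow_mul, mul_comm]
    calc (u ^ 4) ^ j * (j * |θ|) ^ 2 * (1 - u ^ 4) ^ 2
        = (u ^ j) ^ 2 * |θ| ^ 2 * (j * (1 - u ^ 4) * u ^ j) ^ 2 := by rw [e2]; ring
      _ ≤ u ^ j * |θ| ^ 2 * (4 * (1 - (u ^ 4) ^ j)) ^ 2 := by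
          gcongr
          nlinarith
      _ = _ := by rw [sq_abs]; ring
  · have h7 : (j * (1 - u ^ 4) * u ^ j) ^ 3 ≤ (4 * (1 - (u ^ 4) ^ j)) ^ 3 := by gcongr
    rw [e1, div_le_iff₀ (by positivity), div_mul_eq_mul_div, div_mul_eq_mul_div,
      le_div_iff₀ (by positivity)]
    have e2 : (u ^ 4) ^ j = (u ^ j) ^ 4 := by rw [← pow_mul, ← pow_mul, mul_comm]
    calc (u ^ 4) ^ j * (j * |θ|) ^ 3 * (1 - u ^ 4) ^ 3
        = u ^ j * |θ| ^ 3 * (j * (1 - u ^ 4) * u ^ j) ^ 3 := by rw [e2]; ring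
      _ ≤ u ^ j * |θ| ^ 3 * (4 * (1 - (u ^ 4) ^ j)) ^ 3 := by gcongr
      _ = _ := by ring

lemma sum_u_le {u : ℝ} (hu : 0 < u) (hu1 : u < 1) (s : Finset ℕ) :
    ∑ j ∈ s, u ^ j ≤ 4 / (1 - u ^ 4) := by
  have h1 : ∑ j ∈ s, u ^ j ≤ (1 - u)⁻¹ := by
    rw [← tsum_geometric_of_lt_one hu.le hu1]
    exact (summable_geometric_of_lt_one hu.le hu1).sum_le_tsum s fun i _ => by positivity
  refine h1.trans ?_
  have h3 : 1 - u ^ 4 ≤ 4 * (1 - u) := by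
    have h := one_add_mul_le_pow (a := u - 1) (by linarith) 4
    push_cast at h
    have : (1 + (u - 1)) = u := by ring
    rw [this] at h
    linarith
  have h2 : 0 < 1 - u ^ 4 := by
    have := pow_lt_one₀ hu.le hu1 (by norm_num : (4 : ℕ) ≠ 0)
    linarith
  rw [inv_eq_one_div, div_le_div_iff₀ (by linarith) h2]
  linarith

/-- the case `r < 1` -/
lemma main_B {n : ℕ} {C : ℚ[X]}
    (hC : C * ∏ i ∈ range (n - 1), qi (i + 2) = ∏ i ∈ range (n - 1), qi (n + i + 2)) {r : ℝ}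
    (hr : 0 < r) (hr1 : r < 1) {θ : ℝ} (hθ : 6 * |θ| ≤ 1 - r) :
    Ar (Phi C r (mean n r) θ) (1024 * |θ| ^ 3 / (1 - r) ^ 4) ∧
      1 - 64 * θ ^ 2 / (1 - r) ^ 3 ≤ ‖Phi C r (mean n r) θ‖ := by
  obtain ⟨u, hu, hu4⟩ : ∃ u : ℝ, 0 < u ∧ u ^ 4 = r := by
    refine ⟨r ^ ((4 : ℝ)⁻¹), Real.rpow_pos_of_pos hr _, ?_⟩
    rw [← Real.rpow_natCast, ← Real.rpow_mul hr.le]
    norm_num
  have hu1 : u < 1 := by
    by_contra h
    push Not at h
    have := one_le_pow₀ h (n := 4)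
    linarith
  have ha : 0 < 1 - r := by linarith
  have hrj : ∀ j : ℕ, 1 ≤ j → r ^ j < 1 := fun j hj => pow_lt_one₀ hr.le hr1 (by omega)
  have hloc : ∀ j : ℕ, 1 ≤ j →
      r ^ j * |j * θ| ^ 2 / (1 - r ^ j) ^ 2 ≤ 16 * θ ^ 2 / (1 - r) ^ 2 * u ^ j ∧
      r ^ j * |j * θ| ^ 3 / (1 - r ^ j) ^ 3 ≤ 64 * |θ| ^ 3 / (1 - r) ^ 3 * u ^ j := by
    intro j hj
    have := local_B hu hu1 hj θ
    rwa [hu4] at this
  have hsmall : ∀ j : ℕ, 1 ≤ j → r ^ j * |j * θ| ^ 2 / (1 - r ^ j) ^ 2 ≤ 1 / 2 := by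
    intro j hj
    refine (hloc j hj).1.trans ?_
    have h1 : 16 * θ ^ 2 / (1 - r) ^ 2 ≤ 1 / 2 := by
      rw [div_le_iff₀ (by positivity), ← sq_abs θ]
      nlinarith [abs_nonneg θ]
    have h2 : u ^ j ≤ 1 := pow_le_one₀ hu.le hu1.le
    have h3 : 0 ≤ 16 * θ ^ 2 / (1 - r) ^ 2 := by positivity
    calc _ ≤ 16 * θ ^ 2 / (1 - r) ^ 2 * 1 := mul_le_mul_of_nonneg_left h2 h3
      _ ≤ _ := by linarith
  have hArU : ∀ j : ℕ, 1 ≤ j → Ar (U r θ j) (128 * |θ| ^ 3 / (1 - r) ^ 3 * u ^ j) := by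
    intro j hj
    rw [U_eq_g]
    refine (Ar_g (by positivity) (hrj j hj) (hsmall j hj)).mono ?_
    have := (hloc j hj).2
    calc _ ≤ 2 * (64 * |θ| ^ 3 / (1 - r) ^ 3 * u ^ j) := by linarith
      _ = _ := by ring
  have hU1 : ∀ j : ℕ, 1 ≤ j → 1 ≤ ‖U r θ j‖ := by
    intro j hj
    rw [U_eq_g]
    exact one_le_norm_g (by positivity) (hrj j hj) _
  have hU2 : ∀ j : ℕ, 1 ≤ j → ‖U r θ j‖ ≤ Real.exp (16 * θ ^ 2 / (1 - r) ^ 2 * u ^ j) := by
    intro j hj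
    rw [U_eq_g]
    refine (norm_g_le (by positivity) (hrj j hj) _).trans ?_
    have h1 := (hloc j hj).1
    have h2 := Real.add_one_le_exp (16 * θ ^ 2 / (1 - r) ^ 2 * u ^ j)
    linarith
  have hUne : ∀ j : ℕ, 1 ≤ j → U r θ j ≠ 0 := by
    intro j hj h0
    have := hU1 j hj
    rw [h0, norm_zero] at this
    linarith
  have hV : ∀ i ∈ range (n - 1), V r θ (i + 2) ≠ 0 := by
    intro i _
    rw [V_eq_U hr.le hr1 θ (by omega)]
    exact div_ne_zero (hUne _ (by omega)) (hUne 1 le_rfl)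
  have hratio : ∀ i ∈ range (n - 1), V r θ (n + i + 2) / V r θ (i + 2) =
      U r θ (n + i + 2) / U r θ (i + 2) := by
    intro i _
    rw [V_eq_U hr.le hr1 θ (by omega), V_eq_U hr.le hr1 θ (by omega : 1 ≤ i + 2)]
    exact div_div_div_cancel_right₀ (hUne 1 le_rfl) _ _
  rw [Phi_eq hC hr.le θ hV, prod_congr rfl hratio]
  have hs1 : ∑ i ∈ range (n - 1), u ^ (i + 2) ≤ 4 / (1 - r) := by
    rw [← hu4, ← sum_image (f := fun j => u ^ j) (g := fun i => i + 2)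
      (fun a _ b _ h => by simpa using h)]
    exact sum_u_le hu hu1 _
  have hs2 : ∑ i ∈ range (n - 1), u ^ (n + i + 2) ≤ 4 / (1 - r) := by
    rw [← hu4, ← sum_image (f := fun j => u ^ j) (g := fun i => n + i + 2)
      (fun a _ b _ h => by simpa using h)]
    exact sum_u_le hu hu1 _
  constructor
  · refine (Ar.prod (range (n - 1)) _ _
      fun i _ => (hArU (n + i + 2) (by omega)).div (hArU (i + 2) (by omega))).mono ?_
    rw [sum_add_distrib, ← mul_sum, ← mul_sum]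
    have h1 : 0 ≤ 128 * |θ| ^ 3 / (1 - r) ^ 3 := by positivity
    calc _ ≤ 128 * |θ| ^ 3 / (1 - r) ^ 3 * (4 / (1 - r)) +
          128 * |θ| ^ 3 / (1 - r) ^ 3 * (4 / (1 - r)) := by gcongr
      _ = _ := by field_simp; ring
  · rw [norm_prod]
    have h1 : ∀ i ∈ range (n - 1), Real.exp (-(16 * θ ^ 2 / (1 - r) ^ 2 * u ^ (i + 2))) ≤
        ‖U r θ (n + i + 2) / U r θ (i + 2)‖ := by
      intro i _
      rw [norm_div, le_div_iff₀ (norm_pos_iff.mpr (hUne _ (by omega)))]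
      calc _ ≤ Real.exp (-(16 * θ ^ 2 / (1 - r) ^ 2 * u ^ (i + 2))) *
            Real.exp (16 * θ ^ 2 / (1 - r) ^ 2 * u ^ (i + 2)) :=
            mul_le_mul_of_nonneg_left (hU2 _ (by omega)) (Real.exp_nonneg _)
        _ = 1 := by rw [← Real.exp_add, neg_add_cancel, Real.exp_zero]
        _ ≤ _ := hU1 _ (by omega)
    refine le_trans ?_ (prod_le_prod (fun i _ => Real.exp_nonneg _) h1)
    rw [← Real.exp_sum, sum_neg_distrib, ← mul_sum]
    have h2 := Real.add_one_le_exp (-(16 * θ ^ 2 / (1 - r) ^ 2 * ∑ i ∈ range (n - 1), u ^ (i + 2)))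
    have h3 : 16 * θ ^ 2 / (1 - r) ^ 2 * ∑ i ∈ range (n - 1), u ^ (i + 2) ≤
        16 * θ ^ 2 / (1 - r) ^ 2 * (4 / (1 - r)) := by gcongr
    have h4 : 16 * θ ^ 2 / (1 - r) ^ 2 * (4 / (1 - r)) = 64 * θ ^ 2 / (1 - r) ^ 3 := by
      field_simp; ring
    linarith

end Pool.Agent.H165.QCat
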