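import Pool.Agent.H165.QCat.MainArc

/-!
# The minor arcs
-/

set_option autoImplicit false

namespace Pool.Agent.H165.QCat

open Finset Polynomial

/-- the coefficients of `P` are dominated by those of a polynomial with value at most `K` at `y` -/
def Dom (y : ℝ) (P : ℂ[X]) (K : ℝ) : Prop :=
  ∃ G : ℝ[X], (∀ m, ‖P.coeff m‖ ≤ G.coeff m) ∧ G.eval y ≤ K

lemma Dom.mul {y : ℝ} (hy : 0 ≤ y) {P Q : ℂ[X]} {K L : ℝ} (hP : Dom y P K) (hQ : Dom y Q L) :
    Dom y (P * Q) (K * L) := by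
  obtain ⟨G, hG, hGK⟩ := hP
  obtain ⟨H, hH, hHL⟩ := hQ
  have hG0 : ∀ m, 0 ≤ G.coeff m := fun m => (norm_nonneg _).trans (hG m)
  have hH0 : ∀ m, 0 ≤ H.coeff m := fun m => (norm_nonneg _).trans (hH m)
  have e1 : 0 ≤ G.eval y := by
    rw [eval_eq_sum_range]
    exact sum_nonneg fun i _ => mul_nonneg (hG0 i) (pow_nonneg hy i)
  have e2 : 0 ≤ H.eval y := by
    rw [eval_eq_sum_range]
    exact sum_nonneg fun i _ => mul_nonneg (hH0 i) (pow_nonneg hy i)
  refine ⟨G * H, fun m => ?_, ?_⟩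
  · rw [coeff_mul, coeff_mul]
    refine (norm_sum_le _ _).trans (sum_le_sum fun i _ => ?_)
    rw [norm_mul]
    exact mul_le_mul (hG _) (hH _) (norm_nonneg _) (hG0 _)
  · rw [eval_mul]
    exact mul_le_mul hGK hHL e2 (e1.trans hGK)

lemma Dom.one (y : ℝ) : Dom y 1 1 := by
  refine ⟨1, fun m => ?_, by simp⟩
  rw [coeff_one, coeff_one]
  split_ifs <;> simp

lemma Dom.prod {y : ℝ} (hy : 0 ≤ y) {ι : Type*} (s : Finset ι) (P : ι → ℂ[X]) (K : ι → ℝ)
    (h : ∀ i ∈ s, Dom y (P i) (K i)) : Dom y (∏ i ∈ s, P i) (∏ i ∈ s, K i) := by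
  classical
  induction s using Finset.induction_on with
  | empty => simpa using Dom.one y
  | insert a s ha ih =>
    rw [prod_insert ha, prod_insert ha]
    exact (h a (by simp)).mul hy (ih fun i hi => h i (by simp [hi]))

lemma Dom.mono {y : ℝ} {P : ℂ[X]} {K L : ℝ} (h : Dom y P K) (hKL : K ≤ L) : Dom y P L := by
  obtain ⟨G, hG, hGK⟩ := h
  exact ⟨G, hG, hGK.trans hKL⟩

lemma Dom.coeff_le {y : ℝ} (hy : 0 < y) {P : ℂ[X]} {K : ℝ} (h : Dom y P K) (m : ℕ) :
    ‖P.coeff m‖ * y ^ m ≤ K := by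
  obtain ⟨G, hG, hGK⟩ := h
  have hG0 : ∀ m, 0 ≤ G.coeff m := fun m => (norm_nonneg _).trans (hG m)
  refine le_trans ?_ hGK
  refine (mul_le_mul_of_nonneg_right (hG m) (pow_nonneg hy.le m)).trans ?_
  by_cases hm : m ≤ G.natDegree
  · rw [eval_eq_sum_range]
    exact single_le_sum (f := fun i => G.coeff i * y ^ i)
      (fun i _ => mul_nonneg (hG0 i) (pow_nonneg hy.le i)) (mem_range.mpr (by omega))
  · rw [coeff_eq_zero_of_natDegree_lt (by omega), zero_mul, eval_eq_sum_range]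
    exact sum_nonneg fun i _ => mul_nonneg (hG0 i) (pow_nonneg hy.le i)

lemma quad_coeff {R : Type*} [CommRing R] (a b : R) (m : ℕ) :
    (1 + C a * X + C b * X ^ 2 : R[X]).coeff m =
      if m = 0 then 1 else if m = 1 then a else if m = 2 then b else 0 := by
  rcases m with _ | _ | _ | m
  · simp
  · simp [coeff_one]
  · simp [coeff_one, coeff_X]
  · simp [coeff_one, coeff_X]

/-- one factor -/
lemma Dom.single (y : ℝ) (α : ℂ) : Dom y (1 + C α * X) (1 + ‖α‖ * y) := by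
  refine ⟨1 + C ‖α‖ * X, fun m => ?_, by simp⟩
  rcases m with _ | _ | m
  · simp
  · simp [coeff_one]
  · simp [coeff_one, coeff_X]

/-- two factors -/
lemma Dom.pair (y : ℝ) (α β : ℂ) :
    Dom y ((1 + C α * X) * (1 + C β * X)) (1 + ‖α + β‖ * y + ‖α‖ * ‖β‖ * y ^ 2) := by
  refine ⟨1 + C ‖α + β‖ * X + C (‖α‖ * ‖β‖) * X ^ 2, fun m => ?_, by simp⟩
  have e : (1 + C α * X) * (1 + C β * X) = 1 + C (α + β) * X + C (α * β) * X ^ 2 := by
    rw [map_add, map_mul]
    ring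
  rw [e, quad_coeff, quad_coeff]
  split_ifs
  · simp
  · exact le_rfl
  · rw [norm_mul]
  · simp

/-- the generating polynomial of the `e N m` at `z` -/
noncomputable def F (z : ℂ) (N : ℕ) : ℂ[X] := ∏ i ∈ range N, (1 + C (z ^ i) * X)

lemma F_coeff (z : ℂ) : ∀ N m : ℕ, (F z N).coeff m = aeval z (e N m) := by
  intro N
  induction N with
  | zero =>
    intro m
    cases m with
    | zero => simp [F, e]
    | succ m => simp [F, e, coeff_one]
  | succ N ih =>
    intro m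
    rw [F, prod_range_succ, ← F, mul_add, mul_one, coeff_add, ih]
    have h : F z N * (C (z ^ N) * X) = C (z ^ N) * (F z N * X) := by ring
    cases m with
    | zero => simp [e_zero_right]
    | succ m =>
      rw [h, coeff_C_mul, coeff_mul_X, ih, e_succ_succ]
      simp

/-- real version -/
lemma prod_real (r y : ℝ) : ∀ N : ℕ, ∏ i ∈ range N, (1 + r ^ i * y) =
    ∑ m ∈ range (N + 1), aeval r (e N m) * y ^ m := by
  intro N
  induction N with
  | zero => simp [e]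
  | succ N ih =>
    rw [prod_range_succ, ih, mul_add, mul_one]
    rw [sum_range_succ' _ (N + 1)]
    have h1 : ∑ k ∈ range (N + 1), aeval r (e (N + 1) (k + 1)) * y ^ (k + 1) =
        ∑ k ∈ range (N + 1), aeval r (e N (k + 1)) * y ^ (k + 1) +
          ∑ k ∈ range (N + 1), r ^ N * aeval r (e N k) * y ^ (k + 1) := by
      rw [← sum_add_distrib]
      refine sum_congr rfl fun k _ => ?_
      rw [e_succ_succ]
      simp
      ring
    have h2 : ∑ m ∈ range (N + 1), aeval r (e N m) * y ^ m =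
        ∑ k ∈ range (N + 1), aeval r (e N (k + 1)) * y ^ (k + 1) +
          aeval r (e (N + 1) 0) * y ^ 0 := by
      rw [sum_range_succ' _ N, sum_range_succ _ N, e_eq_zero N (N + 1) (by omega),
        e_zero_right, e_zero_right]
      simp
    have h3 : (∑ i ∈ range (N + 1), r ^ N * aeval r (e N i) * y ^ (i + 1)) =
        (∑ k ∈ range (N + 1), aeval r (e N k) * y ^ k) * (r ^ N * y) := by
      rw [sum_mul]
      refine sum_congr rfl fun k _ => ?_
      ring
    rw [h1, h3]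
    linear_combination h2

lemma e_real_nonneg {r : ℝ} (hr : 0 ≤ r) : ∀ N m : ℕ, 0 ≤ aeval r (e N m) := by
  intro N
  induction N with
  | zero =>
    intro m
    cases m <;> simp [e]
  | succ N ih =>
    intro m
    cases m with
    | zero => simp [e_zero_right]
    | succ m =>
      rw [e_succ_succ]
      simp only [map_add, map_mul, map_pow, aeval_X]
      have h1 := ih (m + 1)
      have h2 := ih m
      positivity

lemma S_mono {r : ℝ} (hr : 0 ≤ r) {a b : ℕ} (h : a ≤ b) : S r a ≤ S r b := by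
  unfold S
  exact sum_le_sum_of_subset_of_nonneg (range_subset_range.mpr h) fun i _ _ => pow_nonneg hr i

/-- the largest term of the generating polynomial -/
lemma central {r : ℝ} (hr : 0 < r) (hr1 : r ≤ 1) (n : ℕ) :
    ∏ i ∈ range (2 * n), (1 + r ^ i * (r ^ n)⁻¹) ≤
      2 * S r (n + 1) * (aeval r (e (2 * n) n) * (r ^ n)⁻¹ ^ n) := by
  set y := (r ^ n)⁻¹ with hy
  have hy0 : 0 < y := by positivity
  set a : ℕ → ℝ := fun m => aeval r (e (2 * n) m) * y ^ m with ha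
  have ha0 : ∀ m, 0 ≤ a m := fun m => mul_nonneg (e_real_nonneg hr.le _ _) (pow_nonneg hy0.le _)
  have hrat : ∀ m, m < 2 * n → a (m + 1) * S r (m + 1) = r ^ m * y * S r (2 * n - m) * a m := by
    intro m hm
    have h := congrArg (aeval r) (e_ratio (2 * n) m hm)
    simp only [map_mul, map_pow, aeval_X, aeval_qi] at h
    simp only [ha, S]
    rw [pow_succ]
    linear_combination y ^ m * y * h
  have hyr : ∀ j, r ^ (n + j) * y = r ^ j := by
    intro j
    rw [hy, pow_add]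
    field_simp
  -- beyond the centre
  have hup : ∀ j, j < n → a (n + j + 1) ≤ r ^ j * a (n + j) := by
    intro j hj
    have h := hrat (n + j) (by omega)
    rw [hyr] at h
    have hS1 : 0 < S r (n + j + 1) := S_pos hr.le (by omega)
    have hS2 : S r (2 * n - (n + j)) ≤ S r (n + j + 1) := S_mono hr.le (by omega)
    have h2 : a (n + j + 1) * S r (n + j + 1) ≤ r ^ j * a (n + j) * S r (n + j + 1) := by
      rw [h]
      have : 0 ≤ r ^ j * a (n + j) := mul_nonneg (pow_nonneg hr.le _) (ha0 _)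
      calc r ^ j * S r (2 * n - (n + j)) * a (n + j)
          = r ^ j * a (n + j) * S r (2 * n - (n + j)) := by ring
        _ ≤ _ := mul_le_mul_of_nonneg_left hS2 this
    exact le_of_mul_le_mul_right h2 hS1
  have hup2 : ∀ j, j ≤ n → a (n + j) ≤ a n := by
    intro j
    induction j with
    | zero => intro _; exact le_rfl
    | succ j ih =>
      intro hj
      refine (hup j (by omega)).trans ?_
      refine le_trans ?_ (ih (by omega))
      exact mul_le_of_le_one_left (ha0 _) (pow_le_one₀ hr.le hr1)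
  have hup3 : ∀ j, j < n → a (n + 1 + j) ≤ r ^ j * a n := by
    intro j hj
    have h1 := hup j hj
    have h2 := hup2 j hj.le
    have e1 : n + 1 + j = n + j + 1 := by omega
    rw [e1]
    exact h1.trans (mul_le_mul_of_nonneg_left h2 (pow_nonneg hr.le _))
  -- below the centre
  have hdown : ∀ m, m < n → a m ≤ r ^ (n - m) * a (m + 1) := by
    intro m hm
    have h := hrat m (by omega)
    have e1 : r ^ m * y = (r ^ (n - m))⁻¹ := by
      rw [hy]
      have : r ^ n = r ^ m * r ^ (n - m) := by rw [← pow_add]; congr 1; omega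
      rw [this]
      field_simp
    rw [e1] at h
    have hS1 : 0 < S r (2 * n - m) := S_pos hr.le (by omega)
    have hS2 : S r (m + 1) ≤ S r (2 * n - m) := S_mono hr.le (by omega)
    have hp : 0 < r ^ (n - m) := pow_pos hr _
    have h2 : a m * S r (2 * n - m) ≤ r ^ (n - m) * a (m + 1) * S r (2 * n - m) := by
      have h3 : a m * S r (2 * n - m) = r ^ (n - m) * (a (m + 1) * S r (m + 1)) := by
        rw [h]
        field_simp
      have h4 := mul_le_mul_of_nonneg_left (mul_le_mul_of_nonneg_left hS2 (ha0 (m + 1))) hp.le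
      rw [h3]
      refine h4.trans (le_of_eq ?_)
      ring
    exact le_of_mul_le_mul_right h2 hS1
  have hdown2 : ∀ j, j ≤ n → a (n - j) ≤ a n := by
    intro j
    induction j with
    | zero => intro _; exact le_rfl
    | succ j ih =>
      intro hj
      have h1 := hdown (n - (j + 1)) (by omega)
      have e1 : n - (j + 1) + 1 = n - j := by omega
      rw [e1] at h1
      refine h1.trans (le_trans ?_ (ih (by omega)))
      exact mul_le_of_le_one_left (ha0 _) (pow_le_one₀ hr.le hr1)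
  have hdown3 : ∀ m, m ≤ n → a m ≤ r ^ (n - m) * a n := by
    intro m hm
    rcases Nat.lt_or_ge m n with h | h
    · refine (hdown m h).trans ?_
      have h2 := hdown2 (n - (m + 1)) (by omega)
      have e1 : n - (n - (m + 1)) = m + 1 := by omega
      rw [e1] at h2
      exact mul_le_mul_of_nonneg_left h2 (pow_nonneg hr.le _)
    · obtain rfl : m = n := by omega
      simp
  rw [prod_real]
  have e1 : 2 * n + 1 = (n + 1) + n := by omega
  rw [e1, sum_range_add]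
  have b1 : ∑ x ∈ range (n + 1), a x ≤ S r (n + 1) * a n := by
    calc ∑ x ∈ range (n + 1), a x ≤ ∑ x ∈ range (n + 1), r ^ (n + 1 - 1 - x) * a n :=
          sum_le_sum fun x hx => hdown3 x (by have := mem_range.mp hx; omega)
      _ = S r (n + 1) * a n := by
          rw [← sum_mul, sum_range_reflect (fun j => r ^ j) (n + 1), S]
  have b2 : ∑ x ∈ range n, a (n + 1 + x) ≤ S r (n + 1) * a n := by
    calc ∑ x ∈ range n, a (n + 1 + x) ≤ ∑ x ∈ range n, r ^ x * a n :=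
          sum_le_sum fun x hx => hup3 x (mem_range.mp hx)
      _ = S r n * a n := by rw [← sum_mul, S]
      _ ≤ _ := mul_le_mul_of_nonneg_right (S_mono hr.le (by omega)) (ha0 _)
  calc _ ≤ S r (n + 1) * a n + S r (n + 1) * a n := add_le_add b1 b2
    _ = _ := by ring

lemma norm_zz_pow {r : ℝ} (hr : 0 ≤ r) (θ : ℝ) (j : ℕ) : ‖zz r θ ^ j‖ = r ^ j := by
  rw [zz_pow, norm_mul, Complex.norm_exp_ofReal_mul_I, mul_one, norm_pow, Complex.norm_of_nonneg hr]

lemma norm_one_add {r : ℝ} (θ : ℝ) {d : ℕ} (h1 : 1 / 2 ≤ r ^ d) (h2 : r ^ d ≤ 1) :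
    ‖1 + zz r θ ^ d‖ ≤ (1 + r ^ d) * (1 - 2 / 9 * (1 - Real.cos (d * θ))) := by
  have hc1 := Real.cos_le_one (d * θ)
  have hc2 := Real.neg_one_le_cos (d * θ)
  set c := Real.cos (d * θ) with hc
  have h3 : ‖1 + zz r θ ^ d‖ ^ 2 = 1 + 2 * r ^ d * c + (r ^ d) ^ 2 := by
    rw [Complex.sq_norm, Complex.normSq_apply, zz_pow, ← Complex.ofReal_pow]
    have e1 : (1 + ((r ^ d : ℝ) : ℂ) * Complex.exp ((d * θ : ℝ) * Complex.I)).re = 1 + r ^ d * c := by
      rw [Complex.add_re, Complex.one_re, Complex.re_ofReal_mul, Complex.exp_ofReal_mul_I_re]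
    have e2 : (1 + ((r ^ d : ℝ) : ℂ) * Complex.exp ((d * θ : ℝ) * Complex.I)).im =
        r ^ d * Real.sin (d * θ) := by
      rw [Complex.add_im, Complex.one_im, Complex.im_ofReal_mul, Complex.exp_ofReal_mul_I_im,
        zero_add]
    rw [e1, e2]
    have h3 := Real.sin_sq_add_cos_sq (d * θ)
    rw [← hc] at h3
    linear_combination (r ^ d) ^ 2 * h3
  have h4 : 0 ≤ (1 + r ^ d) * (1 - 2 / 9 * (1 - c)) := mul_nonneg (by linarith) (by linarith)
  apply le_of_sq_le_sq _ h4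
  rw [h3, mul_pow]
  have h5 : 4 / 9 * (1 + r ^ d) ^ 2 ≤ 2 * r ^ d := by nlinarith
  have h6 : 1 - 4 / 9 * (1 - c) ≤ (1 - 2 / 9 * (1 - c)) ^ 2 := by nlinarith [sq_nonneg (1 - c)]
  calc 1 + 2 * r ^ d * c + (r ^ d) ^ 2 = (1 + r ^ d) ^ 2 - 2 * r ^ d * (1 - c) := by ring
    _ ≤ (1 + r ^ d) ^ 2 - 4 / 9 * (1 + r ^ d) ^ 2 * (1 - c) := by nlinarith
    _ = (1 + r ^ d) ^ 2 * (1 - 4 / 9 * (1 - c)) := by ring
    _ ≤ _ := mul_le_mul_of_nonneg_left h6 (sq_nonneg _)

/-- a pair of factors -/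
lemma pair_bound {r : ℝ} (hr : 0 < r) (hr1 : r ≤ 1) (θ : ℝ) {n i d : ℕ}
    (h : 1 / 2 ≤ r ^ (i + d)) :
    Dom (r ^ n)⁻¹ ((1 + C (zz r θ ^ (n + i)) * X) * (1 + C (zz r θ ^ (n + i + d)) * X))
      ((1 - (1 - Real.cos (d * θ)) / 24) * ((1 + r ^ (n + i) * (r ^ n)⁻¹) *
        (1 + r ^ (n + i + d) * (r ^ n)⁻¹))) := by
  refine (Dom.pair _ _ _).mono ?_
  rw [norm_zz_pow hr.le, norm_zz_pow hr.le]
  have e1 : ‖zz r θ ^ (n + i) + zz r θ ^ (n + i + d)‖ = r ^ (n + i) * ‖1 + zz r θ ^ d‖ := by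
    rw [pow_add _ (n + i) d, ← mul_one_add, norm_mul, norm_zz_pow hr.le]
  have hx : r ^ (n + i) * (r ^ n)⁻¹ = r ^ i := by
    rw [pow_add]
    field_simp
  have hx' : r ^ (n + i + d) * (r ^ n)⁻¹ = r ^ i * r ^ d := by
    rw [pow_add, pow_add]
    field_simp
  have h1 : r ^ i ≤ 1 := pow_le_one₀ hr.le hr1
  have h2 : r ^ d ≤ 1 := pow_le_one₀ hr.le hr1
  have h3 : 1 / 2 ≤ r ^ i := h.trans (pow_le_pow_of_le_one hr.le hr1 (by omega))
  have h4 : 1 / 2 ≤ r ^ d := h.trans (pow_le_pow_of_le_one hr.le hr1 (by omega))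
  have h5 := norm_one_add θ h4 h2
  have hc1 := Real.cos_le_one (d * θ)
  have e2 : 1 + ‖zz r θ ^ (n + i) + zz r θ ^ (n + i + d)‖ * (r ^ n)⁻¹ +
      r ^ (n + i) * r ^ (n + i + d) * (r ^ n)⁻¹ ^ 2 =
      1 + r ^ i * ‖1 + zz r θ ^ d‖ + r ^ i * (r ^ i * r ^ d) := by
    rw [e1, ← hx', ← hx]
    ring
  rw [e2, hx, hx']
  set c := Real.cos (d * θ)
  set x := r ^ i
  set ρ := r ^ d
  have hx0 : 0 ≤ x := by linarith
  have h6 : x * ‖1 + zz r θ ^ d‖ ≤ x * ((1 + ρ) * (1 - 2 / 9 * (1 - c))) :=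
    mul_le_mul_of_nonneg_left h5 hx0
  have h7 : 3 / 4 ≤ x * (1 + ρ) := by nlinarith
  have h8 : (1 + x) * (1 + x * ρ) ≤ 4 := by
    have : x * ρ ≤ 1 := mul_le_one₀ h1 (by linarith) h2
    nlinarith [mul_nonneg hx0 (by linarith : (0 : ℝ) ≤ ρ)]
  have h9 : 0 ≤ 1 - c := by linarith
  calc 1 + x * ‖1 + zz r θ ^ d‖ + x * (x * ρ)
      ≤ 1 + x * ((1 + ρ) * (1 - 2 / 9 * (1 - c))) + x * (x * ρ) := by linarith
    _ = (1 + x) * (1 + x * ρ) - x * (1 + ρ) * (2 / 9 * (1 - c)) := by ring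
    _ ≤ (1 + x) * (1 + x * ρ) - 3 / 4 * (2 / 9 * (1 - c)) := by
        have := mul_le_mul_of_nonneg_right h7 (by positivity : 0 ≤ 2 / 9 * (1 - c))
        linarith
    _ ≤ (1 + x) * (1 + x * ρ) - (1 + x) * (1 + x * ρ) * ((1 - c) / 24) := by
        have := mul_le_mul_of_nonneg_right h8 (by positivity : 0 ≤ (1 - c) / 24)
        linarith
    _ = _ := by ring

lemma block_bound {r : ℝ} (hr : 0 < r) (hr1 : r ≤ 1) (θ : ℝ) (n : ℕ) {d : ℕ} : ∀ q : ℕ,
    1 / 2 ≤ r ^ (2 * d * q) →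
    Dom (r ^ n)⁻¹ (∏ i ∈ range (2 * d * q), (1 + C (zz r θ ^ (n + i)) * X))
      ((1 - (1 - Real.cos (d * θ)) / 24) ^ (d * q) *
        ∏ i ∈ range (2 * d * q), (1 + r ^ (n + i) * (r ^ n)⁻¹)) := by
  intro q
  have hy : 0 < (r ^ n)⁻¹ := by positivity
  induction q with
  | zero => intro _; simpa using Dom.one _
  | succ q ih =>
    intro h
    have e1 : 2 * d * (q + 1) = 2 * d * q + (d + d) := by ring
    rw [e1] at h ⊢
    have h1 : 1 / 2 ≤ r ^ (2 * d * q) := h.trans (pow_le_pow_of_le_one hr.le hr1 (by omega))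
    have ih' := ih h1
    have h2 : Dom (r ^ n)⁻¹
        (∏ i ∈ range d, ((1 + C (zz r θ ^ (n + (2 * d * q + i))) * X) *
          (1 + C (zz r θ ^ (n + (2 * d * q + i) + d)) * X)))
        (∏ i ∈ range d, ((1 - (1 - Real.cos (d * θ)) / 24) *
          ((1 + r ^ (n + (2 * d * q + i)) * (r ^ n)⁻¹) *
            (1 + r ^ (n + (2 * d * q + i) + d) * (r ^ n)⁻¹)))) := by
      refine Dom.prod hy.le _ _ _ fun i hi => pair_bound hr hr1 θ ?_
      have := mem_range.mp hi
      exact h.trans (pow_le_pow_of_le_one hr.le hr1 (by omega))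
    have h3 := ih'.mul hy.le h2
    have e2 : ∀ i, n + (2 * d * q + (d + i)) = n + (2 * d * q + i) + d := fun i => by ring
    rw [prod_range_add _ (2 * d * q) (d + d), prod_range_add _ (2 * d * q) (d + d),
      prod_range_add _ d d, prod_range_add _ d d]
    simp only [e2]
    simp only [prod_mul_distrib, prod_const, card_range] at h3
    have e3 : d * (q + 1) = d * q + d := by ring
    rw [e3, pow_add]
    convert h3 using 1
    ring

lemma window_bound {r : ℝ} (hr : 0 < r) (hr1 : r ≤ 1) (θ : ℝ) {n d q : ℕ} (hq : 2 * d * q ≤ n)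
    (h : 1 / 2 ≤ r ^ (2 * d * q)) :
    Dom (r ^ n)⁻¹ (F (zz r θ) (2 * n)) ((1 - (1 - Real.cos (d * θ)) / 24) ^ (d * q) *
        ∏ i ∈ range (2 * n), (1 + r ^ i * (r ^ n)⁻¹)) := by
  have hy : 0 < (r ^ n)⁻¹ := by positivity
  obtain ⟨s, hn⟩ : ∃ s, n = 2 * d * q + s := ⟨n - 2 * d * q, by omega⟩
  have e1 : 2 * n = n + (2 * d * q + s) := by omega
  have hs : ∀ k : ℕ, Dom (r ^ n)⁻¹ (1 + C (zz r θ ^ k) * X) (1 + r ^ k * (r ^ n)⁻¹) := by
    intro k
    have := Dom.single (r ^ n)⁻¹ (zz r θ ^ k)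
    rwa [norm_zz_pow hr.le] at this
  have h1 : Dom (r ^ n)⁻¹ (∏ i ∈ range n, (1 + C (zz r θ ^ i) * X))
      (∏ i ∈ range n, (1 + r ^ i * (r ^ n)⁻¹)) := Dom.prod hy.le _ _ _ fun i _ => hs i
  have h2 := block_bound hr hr1 θ n q h
  have h3 : Dom (r ^ n)⁻¹ (∏ i ∈ range s, (1 + C (zz r θ ^ (n + (2 * d * q + i))) * X))
      (∏ i ∈ range s, (1 + r ^ (n + (2 * d * q + i)) * (r ^ n)⁻¹)) :=
    Dom.prod hy.le _ _ _ fun i _ => hs _
  have h4 := h1.mul hy.le (h2.mul hy.le h3)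
  unfold F
  rw [e1, prod_range_add _ n (2 * d * q + s), prod_range_add _ n (2 * d * q + s),
    prod_range_add _ (2 * d * q) s, prod_range_add _ (2 * d * q) s]
  refine h4.mono (le_of_eq ?_)
  ring

/-- the estimate of the `q`-Catalan number by pairs -/
lemma norm_Phi_le {n : ℕ} (hn : 1 ≤ n) {C : ℚ[X]} (h : qi (n + 1) * qf n * qf n * C = qf (2 * n))
    {r : ℝ} (hr : 0 < r) (hr1 : r ≤ 1) (k θ : ℝ) {d q : ℕ} (hq : 2 * d * q ≤ n)
    (hL : 1 / 2 ≤ r ^ (2 * d * q)) :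
    ‖Phi C r k θ‖ ≤ 4 * S r (n + 1) ^ 2 * (1 - (1 - Real.cos (d * θ)) / 24) ^ (d * q) := by
  have hy : 0 < (r ^ n)⁻¹ := by positivity
  set y := (r ^ n)⁻¹ with hyd
  set κ := (1 - (1 - Real.cos (d * θ)) / 24) ^ (d * q) with hκ
  have hκ0 : 0 ≤ κ := by
    have := Real.neg_one_le_cos (d * θ)
    apply pow_nonneg
    linarith
  have hdom := window_bound hr hr1 θ hq hL
  have hcen := central hr hr1 n
  rw [← hyd] at hdom hcen
  set P := ∏ i ∈ range (2 * n), (1 + r ^ i * y) with hP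
  have hcoef : ∀ m, ‖aeval (zz r θ) (e (2 * n) m)‖ ≤ κ * P * r ^ (n * m) := by
    intro m
    have h1 := hdom.coeff_le hy m
    rw [F_coeff] at h1
    have h2 : y ^ m * r ^ (n * m) = 1 := by
      rw [hyd, inv_pow, ← pow_mul, inv_mul_cancel₀ (pow_pos hr _).ne']
    calc _ = ‖aeval (zz r θ) (e (2 * n) m)‖ * y ^ m * r ^ (n * m) := by
          rw [mul_assoc, h2, mul_one]
      _ ≤ _ := mul_le_mul_of_nonneg_right h1 (pow_nonneg hr.le _)
  obtain ⟨hc1, hc2⟩ := cat_e n hn C h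
  have g1 := congrArg (aeval (zz r θ)) hc1
  have g2 := congrArg (aeval r) hc2
  simp only [map_mul, map_sub, map_pow, aeval_X, aeval_qi] at g1 g2
  rw [← S] at g2
  have hS := S_pos hr.le (by omega : 1 ≤ n + 1)
  have hC0 : 0 < aeval r C := aeval_C_pos (cat_prod n hn C h) hr.le
  have h5 : ‖aeval (zz r θ) C‖ * r ^ tri (n + 1) ≤ 2 * (κ * P) * r ^ (n + n * n) := by
    have h6 : ‖zz r θ ^ tri (n + 1) * aeval (zz r θ) C‖ = ‖aeval (zz r θ) C‖ * r ^ tri (n + 1) := by
      rw [norm_mul, norm_zz_pow hr.le, mul_comm]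
    rw [← h6, g1]
    refine (norm_sub_le _ _).trans ?_
    rw [norm_mul, norm_mul, norm_zz_pow hr.le]
    have h7 : ‖zz r θ‖ = r := by
      have := norm_zz_pow hr.le θ 1
      simpa using this
    rw [h7]
    calc r ^ n * ‖aeval (zz r θ) (e (2 * n) n)‖ + r * ‖aeval (zz r θ) (e (2 * n) (n + 1))‖
        ≤ r ^ n * (κ * P * r ^ (n * n)) + r * (κ * P * r ^ (n * (n + 1))) := by
          gcongr
          · exact hcoef n
          · exact hcoef (n + 1)
      _ = κ * P * r ^ (n + n * n) + r * (κ * P * r ^ (n + n * n)) := by ring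
      _ ≤ κ * P * r ^ (n + n * n) + 1 * (κ * P * r ^ (n + n * n)) := by
          have hP0 : 0 ≤ P := prod_nonneg fun i _ => by positivity
          gcongr
      _ = _ := by ring
  have h8 : aeval r (e (2 * n) n) * y ^ n * r ^ (n + n * n) =
      r ^ tri (n + 1) * aeval r C * S r (n + 1) := by
    rw [g2, pow_add]
    have h2 : y ^ n * r ^ (n * n) = 1 := by
      rw [hyd, inv_pow, ← pow_mul, inv_mul_cancel₀ (pow_pos hr _).ne']
    linear_combination r ^ n * aeval r (e (2 * n) n) * h2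
  have h9 : ‖Phi C r k θ‖ = ‖aeval (zz r θ) C‖ / aeval r C := by
    unfold Phi
    rw [norm_div, norm_mul, Complex.norm_exp_ofReal_mul_I, mul_one, Complex.norm_of_nonneg hC0.le]
  rw [h9, div_le_iff₀ hC0]
  have h10 : 0 < r ^ tri (n + 1) := pow_pos hr _
  apply le_of_mul_le_mul_right _ h10
  calc _ ≤ 2 * (κ * P) * r ^ (n + n * n) := h5
    _ ≤ 2 * (κ * (2 * S r (n + 1) * (aeval r (e (2 * n) n) * y ^ n))) * r ^ (n + n * n) := by
        gcongr
    _ = 4 * κ * S r (n + 1) * (aeval r (e (2 * n) n) * y ^ n * r ^ (n + n * n)) := by ring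
    _ = _ := by rw [h8]; ring

end Pool.Agent.H165.QCat
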